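import Pool.Agent.Y199.DM.Orb

/-!
Return sets of orbits which are `p`-adically near to a preperiodic orbit of a nearby map (helper
file).
-/

set_option autoImplicit false

namespace Pool.Agent.Y199.DM

open MvPolynomial Pool.Agent.H936R2

/-- Values of nearby polynomials with integral coefficients at nearby integral points. -/
theorem mv_near {p : ℕ} [hp : Fact p.Prime] {ι : Type} [Finite ι] (τ : ℂ →+* PadicAlgCl p)
    (f g : MvPolynomial ι ℂ) (x y : ι → ℂ)
    (hf : ∀ κ, ‖τ (f.coeff κ)‖ ≤ 1) (hg : ∀ κ, ‖τ (g.coeff κ)‖ ≤ 1)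
    (hfg : ∀ κ, ‖τ (f.coeff κ) - τ (g.coeff κ)‖ < 1)
    (hx : ∀ i, ‖τ (x i)‖ ≤ 1) (hy : ∀ i, ‖τ (y i)‖ ≤ 1) (hxy : ∀ i, ‖τ (x i) - τ (y i)‖ < 1) :
    ‖τ (eval x f)‖ ≤ 1 ∧ ‖τ (eval y g)‖ ≤ 1 ∧ ‖τ (eval x f) - τ (eval y g)‖ < 1 := by
  set O := unitBall (PadicAlgCl p) with hO
  obtain ⟨f', hf'⟩ := exists_lift τ f hf
  obtain ⟨g', hg'⟩ := exists_lift τ g hg
  let b : ι → O := fun i => ⟨τ (x i), hx i⟩
  let c : ι → O := fun i => ⟨τ (y i), hy i⟩
  have hev : ∀ (h : MvPolynomial ι ℂ) (h' : MvPolynomial ι O), map O.subtype h' = map τ h →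
      ∀ (z : ι → ℂ) (z' : ι → O), (∀ i, ((z' i : O) : PadicAlgCl p) = τ (z i)) →
        ((eval z' h' : O) : PadicAlgCl p) = τ (eval z h) := by
    intro h h' hh z z' hz
    have e1 : ((eval z' h' : O) : PadicAlgCl p) = O.subtype (eval z' h') := rfl
    have e2 : O.subtype (eval z' h') = eval (fun i => O.subtype (z' i)) (map O.subtype h') := by
      rw [eval_map]
      have h := eval₂_comp_left O.subtype (RingHom.id _) z' h'
      rw [RingHom.comp_id] at h
      exact h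
    have e3 : τ (eval z h) = eval (fun i => τ (z i)) (map τ h) := by
      rw [eval_map]
      have h := eval₂_comp_left τ (RingHom.id _) z h
      rw [RingHom.comp_id] at h
      exact h
    have e4 : (fun i => O.subtype (z' i)) = fun i => τ (z i) := _root_.funext hz
    rw [e1, e2, e3, hh, e4]
  have h1 := hev f f' hf' x b (fun _ => rfl)
  have h2 := hev g g' hg' y c (fun _ => rfl)
  refine ⟨by rw [← h1]; exact unitBall_norm_le _, by rw [← h2]; exact unitBall_norm_le _, ?_⟩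
  have hresF : map (res (PadicAlgCl p)) f' = map (res (PadicAlgCl p)) g' := by
    ext κ
    rw [coeff_map, coeff_map, ← sub_eq_zero, ← map_sub, res_eq_zero_iff]
    have e1 : ((f'.coeff κ : O) : PadicAlgCl p) = τ (f.coeff κ) := by
      have := congrArg (coeff κ) hf'
      rwa [coeff_map, coeff_map] at this
    have e2 : ((g'.coeff κ : O) : PadicAlgCl p) = τ (g.coeff κ) := by
      have := congrArg (coeff κ) hg'
      rwa [coeff_map, coeff_map] at this
    have e3 : ((f'.coeff κ - g'.coeff κ : O) : PadicAlgCl p) =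
        ((f'.coeff κ : O) : PadicAlgCl p) - ((g'.coeff κ : O) : PadicAlgCl p) := rfl
    rw [e3, e1, e2]
    exact hfg κ
  have hresx : (fun i => res (PadicAlgCl p) (b i)) = fun i => res (PadicAlgCl p) (c i) := by
    funext i
    rw [← sub_eq_zero, ← map_sub, res_eq_zero_iff]
    exact hxy i
  have hevr : ∀ (h' : MvPolynomial ι O) (z' : ι → O), res (PadicAlgCl p) (eval z' h') =
      eval (fun i => res (PadicAlgCl p) (z' i)) (map (res (PadicAlgCl p)) h') := by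
    intro h' z'
    rw [eval_map]
    have h := eval₂_comp_left (res (PadicAlgCl p)) (RingHom.id _) z' h'
    rw [RingHom.comp_id] at h
    exact h
  have h3 : res (PadicAlgCl p) (eval b f') = res (PadicAlgCl p) (eval c g') := by
    rw [hevr, hevr, hresF, hresx]
  rw [← sub_eq_zero, ← map_sub, res_eq_zero_iff] at h3
  rw [← h1, ← h2]
  exact h3

/-- Iterates of nearby points under nearby maps. -/
theorem iterates_near {p : ℕ} [hp : Fact p.Prime] {N : ℕ} (τ : ℂ →+* PadicAlgCl p)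
    (f g : Fin (N + 1) → MvPolynomial (Fin (N + 1)) ℂ) (x P : Fin (N + 1) → ℂ)
    (hf : ∀ i κ, ‖τ ((f i).coeff κ)‖ ≤ 1) (hg : ∀ i κ, ‖τ ((g i).coeff κ)‖ ≤ 1)
    (hfg : ∀ i κ, ‖τ ((f i).coeff κ) - τ ((g i).coeff κ)‖ < 1)
    (hx : ∀ i, ‖τ (x i)‖ ≤ 1) (hP : ∀ i, ‖τ (P i)‖ ≤ 1) (hxP : ∀ i, ‖τ (x i) - τ (P i)‖ < 1)
    (n : ℕ) : ∀ i, ‖τ ((pt f)^[n] x i)‖ ≤ 1 ∧ ‖τ ((pt g)^[n] P i)‖ ≤ 1 ∧
      ‖τ ((pt f)^[n] x i) - τ ((pt g)^[n] P i)‖ < 1 := by
  induction n with
  | zero => exact fun i => ⟨hx i, hP i, hxP i⟩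
  | succ n ih =>
    intro i
    rw [Function.iterate_succ_apply', Function.iterate_succ_apply']
    exact mv_near τ (f i) (g i) _ _ (hf i) (hg i) (hfg i) (fun j => (ih j).1) (fun j => (ih j).2.1)
      (fun j => (ih j).2.2)

/-- Preperiodic points in projective space: no iterate of `P` (in the cone) is zero, and two
iterates are proportional. -/
def Preperiodic {N : ℕ} (F : Fin (N + 1) → MvPolynomial (Fin (N + 1)) ℂ)
    (P : Fin (N + 1) → ℂ) : Prop :=
  (∀ n, (pt F)^[n] P ≠ 0) ∧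
  ∃ n₀ m : ℕ, 0 < m ∧ ∃ c : ℂ, (pt F)^[n₀ + m] P = c • (pt F)^[n₀] P

/-- The determinant of the matrix of partial derivatives does not vanish at the iterates of `P` from
some index on. -/
def EventuallyEtale {N : ℕ} (F : Fin (N + 1) → MvPolynomial (Fin (N + 1)) ℂ)
    (P : Fin (N + 1) → ℂ) : Prop :=
  ∃ n₀ : ℕ, ∀ n, n₀ ≤ n → (Matrix.of fun i j => eval ((pt F)^[n] P) (pderiv j (F i))).det ≠ 0

/-- The set of the `n` such that the polynomials `G k` vanish at the `n`-th iterate. -/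
def returnSet {N : ℕ} {κ : Type} (F : Fin (N + 1) → MvPolynomial (Fin (N + 1)) ℂ)
    (P : Fin (N + 1) → ℂ) (G : κ → MvPolynomial (Fin (N + 1)) ℂ) : Set ℕ :=
  {n | ∀ k, eval ((pt F)^[n] P) (G k) = 0}

/-- A finite union of arithmetic progressions `{a k + b : k ≥ 0}`. -/
def IsFiniteUnionOfAP (R : Set ℕ) : Prop :=
  ∃ T : Finset (ℕ × ℕ), R = {n : ℕ | ∃ q ∈ T, ∃ k : ℕ, n = q.1 * k + q.2}

theorem etalePreperiodic {N d : ℕ} {F : Fin (N + 1) → MvPolynomial (Fin (N + 1)) ℂ}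
    (hF : ∀ i, (F i).IsHomogeneous d) {P : Fin (N + 1) → ℂ} (h1 : Preperiodic F P)
    (h2 : EventuallyEtale F P) : EtalePreperiodic F P := by
  obtain ⟨hne, n₀, m, hm, c, hc⟩ := h1
  obtain ⟨n₁, hn₁⟩ := h2
  refine ⟨hne, n₁ + n₀, m, hm, ⟨c ^ d ^ n₁, ?_⟩, fun n hn => hn₁ n (by omega)⟩
  rw [Nat.add_assoc, Function.iterate_add_apply, hc, Function.iterate_add_apply _ n₁ n₀]
  exact iterate_scale F d hF c ((pt F)^[n₀] P) n₁

theorem isFiniteUnionOfAP_of_finite {R : Set ℕ} (h : R.Finite) : IsFiniteUnionOfAP R := by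
  classical
  refine ⟨h.toFinset.image fun n => (0, n), ?_⟩
  ext n
  simp only [Set.mem_ofPred_eq, Finset.mem_image, Set.Finite.mem_toFinset]
  constructor
  · intro hn
    exact ⟨(0, n), ⟨n, hn, rfl⟩, 0, by simp⟩
  · rintro ⟨q, ⟨m, hm, rfl⟩, k, rfl⟩
    simpa using hm

/-- The finite set of numbers whose integrality is used for the return sets. -/
theorem exists_units_ret {N d : ℕ} {κ : Type} [Finite κ]
    (F : Fin (N + 1) → MvPolynomial (Fin (N + 1)) ℂ)
    (hF : ∀ i, (F i).IsHomogeneous d) (P : Fin (N + 1) → ℂ) (h : Preperiodic F P)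
    (G : κ → MvPolynomial (Fin (N + 1)) ℂ) (e : κ → ℕ) (hG : ∀ k, (G k).IsHomogeneous (e k)) :
    ∃ s : Finset ℂ, (∀ K : Subfield ℂ, (∀ i κ, (F i).coeff κ ∈ K) → (∀ i, P i ∈ K) →
      (∀ k κ, (G k).coeff κ ∈ K) → (s : Set ℂ) ⊆ K) ∧
      ∀ (p : ℕ) [Fact p.Prime] (τ : ℂ →+* PadicAlgCl p), (∀ y ∈ s, ‖τ y‖ ≤ 1) →
      (∀ n, ∃ i, ‖τ ((pt F)^[n] P i)‖ = 1) ∧
      ∀ n, n ∉ returnSet F P G → ∃ k, ‖τ (eval ((pt F)^[n] P) (G k))‖ = 1 := by
  classical
  obtain ⟨hne, n₀, m, hm, c, hc⟩ := h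
  have : Fintype κ := Fintype.ofFinite κ
  have hc0 : c ≠ 0 := by
    intro h0
    rw [h0, zero_smul] at hc
    exact hne _ hc
  have hcoord : ∀ n, ∃ i, (pt F)^[n] P i ≠ 0 := fun n => by
    by_contra hall
    push Not at hall
    exact hne n (_root_.funext hall)
  choose i hi using hcoord
  let s : Finset ℂ := {c, c⁻¹} ∪
    ((Finset.range (n₀ + m)).image fun n => ((pt F)^[n] P (i n))) ∪
    ((Finset.range (n₀ + m)).image fun n => ((pt F)^[n] P (i n))⁻¹) ∪
    ((Finset.range (n₀ + m) ×ˢ (Finset.univ : Finset κ)).image fun q =>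
      (eval ((pt F)^[q.1] P) (G q.2))) ∪
    ((Finset.range (n₀ + m) ×ˢ (Finset.univ : Finset κ)).image fun q =>
      (eval ((pt F)^[q.1] P) (G q.2))⁻¹)
  refine ⟨s, fun K hFK hPK hGK => ?_, fun p hp τ hτ => ?_⟩
  · have horb : ∀ n i, (pt F)^[n] P i ∈ K := fun n => iterate_mem K F hFK P hPK n
    have hvK : ∀ n k, eval ((pt F)^[n] P) (G k) ∈ K := fun n k =>
      eval_mem_subring K.toSubring _ (horb n) _ (hGK k)
    have hcK : c ∈ K := by
      have h1 : (pt F)^[n₀ + m] P (i n₀) = c * (pt F)^[n₀] P (i n₀) := by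
        rw [hc]
        rfl
      have h2 : c = (pt F)^[n₀ + m] P (i n₀) / (pt F)^[n₀] P (i n₀) := by
        rw [h1, mul_div_assoc, div_self (hi n₀), mul_one]
      rw [h2]
      exact K.div_mem (horb _ _) (horb _ _)
    intro y hy
    rw [SetLike.mem_coe]
    simp only [s, Finset.coe_union, Finset.coe_image, Set.mem_union, Set.mem_image,
      Finset.coe_insert, Finset.coe_singleton, Set.mem_insert_iff, Set.mem_singleton_iff] at hy
    rcases hy with (((((rfl | rfl) | ⟨n, -, rfl⟩) | ⟨n, -, rfl⟩) | ⟨n, -, rfl⟩) | ⟨n, -, rfl⟩)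
    · exact hcK
    · exact K.inv_mem hcK
    · exact horb _ _
    · exact K.inv_mem (horb _ _)
    · exact hvK _ _
    · exact K.inv_mem (hvK _ _)
  have hone : ∀ y : ℂ, y ≠ 0 → y ∈ s → y⁻¹ ∈ s → ‖τ y‖ = 1 := by
    intro y hy h1 h2
    have e1 := hτ _ h1
    have e2 := hτ _ h2
    rw [map_inv₀, norm_inv] at e2
    refine le_antisymm e1 ?_
    by_contra hlt
    push Not at hlt
    have hpos : 0 < ‖τ y‖ := norm_pos_iff.2 ((map_ne_zero τ).2 hy)
    have := one_lt_inv_iff₀.2 ⟨hpos, hlt⟩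
    linarith
  have hcn : ‖τ c‖ = 1 := hone c hc0 (by simp [s]) (by simp [s])
  have hin : ∀ n < n₀ + m, ‖τ ((pt F)^[n] P (i n))‖ = 1 := by
    intro n hn
    refine hone _ (hi n) ?_ ?_
    · simp only [s, Finset.mem_union]
      exact Or.inl (Or.inl (Or.inl (Or.inr (Finset.mem_image.2
        ⟨n, Finset.mem_range.2 hn, rfl⟩))))
    · simp only [s, Finset.mem_union]
      exact Or.inl (Or.inl (Or.inr (Finset.mem_image.2
        ⟨n, Finset.mem_range.2 hn, rfl⟩)))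
  have hvn : ∀ n < n₀ + m, ∀ k, eval ((pt F)^[n] P) (G k) ≠ 0 →
      ‖τ (eval ((pt F)^[n] P) (G k))‖ = 1 := by
    intro n hn k hk
    refine hone _ hk ?_ ?_
    · simp only [s, Finset.mem_union]
      exact Or.inl (Or.inr (Finset.mem_image.2
        ⟨(n, k), Finset.mem_product.2 ⟨Finset.mem_range.2 hn, Finset.mem_univ _⟩, rfl⟩))
    · simp only [s, Finset.mem_union]
      exact Or.inr (Finset.mem_image.2
        ⟨(n, k), Finset.mem_product.2 ⟨Finset.mem_range.2 hn, Finset.mem_univ _⟩, rfl⟩)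
  have hscale : ∀ (a : ℂ) (w : Fin (N + 1) → ℂ) (k : κ),
      eval (a • w) (G k) = a ^ e k * eval w (G k) := fun a w k => eval_scale (G k) (e k) (hG k) a w
  constructor
  · intro n
    by_cases hn : n < n₀
    · exact ⟨i n, hin n (by omega)⟩
    · obtain ⟨l, rfl⟩ := Nat.exists_eq_add_of_le (not_lt.1 hn)
      obtain ⟨j, hj, a, hje⟩ := iterate_preperiodic F hF P n₀ m hm c hc l
      refine ⟨i (n₀ + j), ?_⟩
      rw [hje, Pi.smul_apply, smul_eq_mul, map_mul, norm_mul, map_pow, norm_pow, hcn, one_pow,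
        one_mul]
      exact hin _ (by omega)
  · intro n hnR
    simp only [returnSet, Set.mem_ofPred_eq, not_forall] at hnR
    obtain ⟨k, hk⟩ := hnR
    refine ⟨k, ?_⟩
    by_cases hn : n < n₀
    · exact hvn n (by omega) k hk
    · obtain ⟨l, rfl⟩ := Nat.exists_eq_add_of_le (not_lt.1 hn)
      obtain ⟨j, hj, a, hje⟩ := iterate_preperiodic F hF P n₀ m hm c hc l
      rw [hje, hscale] at hk ⊢
      rw [map_mul, norm_mul, map_pow, map_pow, norm_pow, norm_pow, hcn, one_pow, one_pow, one_mul]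
      exact hvn _ (by omega) k (right_ne_zero_of_mul hk)

end Pool.Agent.Y199.DM
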