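import Pool.Agent.H936R2.Crit2

/-!
Orbits which are `p`-adically near to an étale preperiodic orbit of a nearby map (helper file).
-/

set_option autoImplicit false

namespace Pool.Agent.Y199.DM

open MvPolynomial Pool.Agent.H936R2

/-- The iterates of `x` are not zero, and for every set `S` of polynomials the set of all `n` such
that all members of `S` vanish at the `n`-th iterate of `x` is a finite union of arithmetic
progressions. -/
def DMLAt {N : ℕ} (F : Fin (N + 1) → MvPolynomial (Fin (N + 1)) ℂ) (x : Fin (N + 1) → ℂ) : Prop :=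
  (∀ n, (pt F)^[n] x ≠ 0) ∧
  ∀ S : Set (MvPolynomial (Fin (N + 1)) ℂ), ∃ T : Finset (ℕ × ℕ),
    {n : ℕ | ∀ g ∈ S, eval ((pt F)^[n] x) g = 0} =
      {n : ℕ | ∃ q ∈ T, ∃ k : ℕ, n = q.1 * k + q.2}

/-- Lifting a polynomial with integral coefficients. -/
theorem exists_lift {p : ℕ} [Fact p.Prime] {ι : Type} (τ : ℂ →+* PadicAlgCl p)
    (f : MvPolynomial ι ℂ) (hf : ∀ κ, ‖τ (f.coeff κ)‖ ≤ 1) :
    ∃ g : MvPolynomial ι (unitBall (PadicAlgCl p)),
      map (unitBall (PadicAlgCl p)).subtype g = map τ f := by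
  have h : map τ f ∈ Set.range (map (σ := ι) (unitBall (PadicAlgCl p)).subtype) := by
    rw [mem_range_map_iff_coeffs_subset]
    intro c hc
    rw [Finset.mem_coe, mem_coeffs_iff] at hc
    obtain ⟨κ, -, rfl⟩ := hc
    rw [coeff_map]
    exact ⟨⟨τ (f.coeff κ), hf κ⟩, rfl⟩
  exact h

theorem orbit_core {p : ℕ} [hp : Fact p.Prime] {N : ℕ} (τ : ℂ →+* PadicAlgCl p)
    (f g : Fin (N + 1) → MvPolynomial (Fin (N + 1)) ℂ) (x P : Fin (N + 1) → ℂ)
    (hf : ∀ i κ, ‖τ ((f i).coeff κ)‖ ≤ 1) (hg : ∀ i κ, ‖τ ((g i).coeff κ)‖ ≤ 1)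
    (hfg : ∀ i κ, ‖τ ((f i).coeff κ) - τ ((g i).coeff κ)‖ < 1)
    (hx : ∀ i, ‖τ (x i)‖ ≤ 1) (hP : ∀ i, ‖τ (P i)‖ ≤ 1) (hxP : ∀ i, ‖τ (x i) - τ (P i)‖ < 1)
    (n0 : ℕ) (hdet : ∀ n, n0 ≤ n → ‖τ ((jac g ((pt g)^[n] P)).det)‖ = 1)
    (hne : ∀ n, ∃ i, ‖τ ((pt g)^[n] P i)‖ = 1) :
    DMLAt f x := by
  set O := unitBall (PadicAlgCl p) with hO
  choose FO hFO using fun i => exists_lift τ (f i) (hf i)
  choose GO hGO using fun i => exists_lift τ (g i) (hg i)
  let b : Fin (N + 1) → O := fun i => ⟨τ (x i), hx i⟩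
  let c : Fin (N + 1) → O := fun i => ⟨τ (P i), hP i⟩
  have hitf : ∀ n i, (((pt FO)^[n] b i : O) : PadicAlgCl p) = τ ((pt f)^[n] x i) := by
    intro n i
    have e1 := pt_map O.subtype FO b n
    have e2 := pt_map τ f x n
    have e3 : (fun i => map O.subtype (FO i)) = fun i => map τ (f i) := _root_.funext hFO
    have e4 : (fun i => O.subtype (b i)) = fun i => τ (x i) := rfl
    rw [e3, e4, e2] at e1
    exact (congrFun e1 i).symm
  have hitg : ∀ n i, (((pt GO)^[n] c i : O) : PadicAlgCl p) = τ ((pt g)^[n] P i) := by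
    intro n i
    have e1 := pt_map O.subtype GO c n
    have e2 := pt_map τ g P n
    have e3 : (fun i => map O.subtype (GO i)) = fun i => map τ (g i) := _root_.funext hGO
    have e4 : (fun i => O.subtype (c i)) = fun i => τ (P i) := rfl
    rw [e3, e4, e2] at e1
    exact (congrFun e1 i).symm
  have hresF : (fun i => map (res (PadicAlgCl p)) (FO i)) =
      fun i => map (res (PadicAlgCl p)) (GO i) := by
    funext i
    ext κ
    rw [coeff_map, coeff_map, ← sub_eq_zero, ← map_sub, res_eq_zero_iff]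
    have e1 : (((FO i).coeff κ : O) : PadicAlgCl p) = τ ((f i).coeff κ) := by
      have := congrArg (coeff κ) (hFO i)
      rwa [coeff_map, coeff_map] at this
    have e2 : (((GO i).coeff κ : O) : PadicAlgCl p) = τ ((g i).coeff κ) := by
      have := congrArg (coeff κ) (hGO i)
      rwa [coeff_map, coeff_map] at this
    have e3 : (((FO i).coeff κ - (GO i).coeff κ : O) : PadicAlgCl p) =
        (((FO i).coeff κ : O) : PadicAlgCl p) - (((GO i).coeff κ : O) : PadicAlgCl p) := rfl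
    rw [e3, e1, e2]
    exact hfg i κ
  have hresx : (fun i => res (PadicAlgCl p) (b i)) = fun i => res (PadicAlgCl p) (c i) := by
    funext i
    rw [← sub_eq_zero, ← map_sub, res_eq_zero_iff]
    exact hxP i
  have hres : ∀ n, (fun i => res (PadicAlgCl p) ((pt FO)^[n] b i)) =
      fun i => res (PadicAlgCl p) ((pt GO)^[n] c i) := by
    intro n
    have e1 := pt_map (res (PadicAlgCl p)) FO b n
    have e2 := pt_map (res (PadicAlgCl p)) GO c n
    rw [← e1, ← e2, hresF, hresx]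
  have hunit : ∀ n, n0 ≤ n → IsUnit (jac FO ((pt FO)^[n] b)).det := by
    intro n hn
    apply isUnit_of_res_ne_zero
    rw [RingHom.map_det, ← jac_map, hresF, hres n, jac_map, ← RingHom.map_det, Ne, res_eq_zero_iff]
    have e1 : (((jac GO ((pt GO)^[n] c)).det : O) : PadicAlgCl p) =
        τ ((jac g ((pt g)^[n] P)).det) := by
      have e2 : (((jac GO ((pt GO)^[n] c)).det : O) : PadicAlgCl p) =
        O.subtype (jac GO ((pt GO)^[n] c)).det := rfl
      rw [e2, RingHom.map_det, ← jac_map, RingHom.map_det, ← jac_map]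
      have e3 : (fun i => map O.subtype (GO i)) = fun i => map τ (g i) := _root_.funext hGO
      have e4 : (fun i => O.subtype ((pt GO)^[n] c i)) = fun i => τ ((pt g)^[n] P i) :=
        _root_.funext (hitg n)
      rw [e3, e4]
    rw [e1, hdet n hn]
    exact lt_irrefl _
  refine ⟨fun n h0 => ?_, fun S => ?_⟩
  · obtain ⟨i, hi⟩ := hne n
    have e1 : res (PadicAlgCl p) ((pt FO)^[n] b i) = 0 := by
      rw [res_eq_zero_iff, hitf n i, h0, Pi.zero_apply, map_zero, norm_zero]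
      exact one_pos
    rw [congrFun (hres n) i, res_eq_zero_iff, hitg n i, hi] at e1
    exact lt_irrefl _ e1
  · obtain ⟨n1, k, hk, hret⟩ := return_set p FO b n0 hunit
    apply exists_progressions _ n1 k hk
    intro r hinf t
    have hiff : ∀ n, (∀ q ∈ S, eval ((pt f)^[n] x) q = 0) ↔
        ∀ Q ∈ (fun q => map τ q) '' S,
          eval (fun i => (((pt FO)^[n] b i : O) : PadicAlgCl p)) Q = 0 := by
      intro n
      have hval : ∀ q : MvPolynomial (Fin (N + 1)) ℂ,
          (eval (fun i => (((pt FO)^[n] b i : O) : PadicAlgCl p)) (map τ q) = 0 ↔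
          eval ((pt f)^[n] x) q = 0) := by
        intro q
        have e4 : (fun i => (((pt FO)^[n] b i : O) : PadicAlgCl p)) =
          fun i => τ ((pt f)^[n] x i) := _root_.funext (hitf n)
        have e1 : eval (fun i => τ ((pt f)^[n] x i)) (map τ q) = τ (eval ((pt f)^[n] x) q) := by
          rw [eval_map]
          have h := eval₂_comp_left τ (RingHom.id _) ((pt f)^[n] x) q
          rw [RingHom.comp_id] at h
          exact h.symm
        rw [e4, e1, map_eq_zero]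
      constructor
      · rintro h Q ⟨q, hq, rfl⟩
        exact (hval q).2 (h q hq)
      · intro h q hq
        exact (hval q).1 (h _ ⟨q, hq, rfl⟩)
    simp only [Set.mem_ofPred_eq, hiff] at hinf ⊢
    exact hret _ r hinf t

/-- Étale preperiodic points: no iterate of `P` is zero, the iterates of `P` in projective space
are finite in number and the determinant of the matrix of partial derivatives does not vanish at the
iterates from some index on. -/
def EtalePreperiodic {N : ℕ} (F : Fin (N + 1) → MvPolynomial (Fin (N + 1)) ℂ)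
    (P : Fin (N + 1) → ℂ) : Prop :=
  (∀ n, (pt F)^[n] P ≠ 0) ∧
  ∃ n₀ m : ℕ, 0 < m ∧ (∃ c : ℂ, (pt F)^[n₀ + m] P = c • (pt F)^[n₀] P) ∧
    ∀ n, n₀ ≤ n → (Matrix.of fun i j => eval ((pt F)^[n] P) (pderiv j (F i))).det ≠ 0

theorem pt_smul {N d : ℕ} (F : Fin (N + 1) → MvPolynomial (Fin (N + 1)) ℂ)
    (hF : ∀ i, (F i).IsHomogeneous d) (c : ℂ) (x : Fin (N + 1) → ℂ) :
    pt F (c • x) = c ^ d • pt F x := by
  funext i
  have := eval_scale (F i) d (hF i) c x
  simp only [pt, Pi.smul_apply, smul_eq_mul]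
  rw [← this]
  rfl

theorem jac_smul {N d : ℕ} (F : Fin (N + 1) → MvPolynomial (Fin (N + 1)) ℂ)
    (hF : ∀ i, (F i).IsHomogeneous d) (c : ℂ) (x : Fin (N + 1) → ℂ) :
    (jac F (c • x)).det = (c ^ (d - 1)) ^ (N + 1) * (jac F x).det := by
  have h1 : jac F (c • x) = c ^ (d - 1) • jac F x := by
    ext i j
    simp only [jac, Matrix.smul_apply, smul_eq_mul]
    have := eval_scale (pderiv j (F i)) (d - 1) (hF i).pderiv c x
    rw [← this]
    rfl
  rw [h1, Matrix.det_smul, Fintype.card_fin]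

/-- The iterates of a preperiodic point. -/
theorem iterate_preperiodic {N d : ℕ} (F : Fin (N + 1) → MvPolynomial (Fin (N + 1)) ℂ)
    (hF : ∀ i, (F i).IsHomogeneous d) (P : Fin (N + 1) → ℂ) (n₀ m : ℕ) (hm : 0 < m) (c : ℂ)
    (hc : (pt F)^[n₀ + m] P = c • (pt F)^[n₀] P) (n : ℕ) :
    ∃ j < m, ∃ e : ℕ, (pt F)^[n₀ + n] P = c ^ e • (pt F)^[n₀ + j] P := by
  induction n with
  | zero => exact ⟨0, hm, 0, by simp⟩
  | succ n ih =>
    obtain ⟨j, hj, e, h⟩ := ih
    have h1 : (pt F)^[n₀ + (n + 1)] P = (c ^ e) ^ d • (pt F)^[n₀ + (j + 1)] P := by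
      rw [← Nat.add_assoc, ← Nat.add_assoc, Function.iterate_succ_apply',
        Function.iterate_succ_apply', h, pt_smul F hF]
    by_cases hj1 : j + 1 < m
    · exact ⟨j + 1, hj1, e * d, by rw [h1, pow_mul]⟩
    · have hjm : j + 1 = m := by omega
      refine ⟨0, hm, e * d + 1, ?_⟩
      rw [h1, hjm, hc, smul_smul, pow_succ, pow_mul]
      rfl

theorem iterate_mem {N : ℕ} (K : Subfield ℂ) (F : Fin (N + 1) → MvPolynomial (Fin (N + 1)) ℂ)
    (hF : ∀ i κ, (F i).coeff κ ∈ K) (P : Fin (N + 1) → ℂ) (hP : ∀ i, P i ∈ K) (n : ℕ) :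
    ∀ i, (pt F)^[n] P i ∈ K := by
  induction n with
  | zero => exact hP
  | succ n ih =>
    intro i
    rw [Function.iterate_succ_apply']
    exact eval_mem_subring K.toSubring _ ih _ (hF i)

theorem det_mem {n : ℕ} (K : Subfield ℂ) (M : Matrix (Fin n) (Fin n) ℂ)
    (hM : ∀ i j, M i j ∈ K) : M.det ∈ K := by
  rw [Matrix.det_apply]
  refine K.sum_mem fun σ _ => ?_
  rw [Units.smul_def]
  exact zsmul_mem (K.prod_mem fun i _ => hM _ _) _

/-- The finite set of numbers whose integrality is used. -/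
theorem exists_units {N d : ℕ} (F : Fin (N + 1) → MvPolynomial (Fin (N + 1)) ℂ)
    (hF : ∀ i, (F i).IsHomogeneous d) (P : Fin (N + 1) → ℂ) (h : EtalePreperiodic F P) :
    ∃ (s : Finset ℂ) (n₀ : ℕ), (∀ K : Subfield ℂ, (∀ i κ, (F i).coeff κ ∈ K) → (∀ i, P i ∈ K) →
      (s : Set ℂ) ⊆ K) ∧ ∀ (p : ℕ) [Fact p.Prime] (τ : ℂ →+* PadicAlgCl p),
      (∀ y ∈ s, ‖τ y‖ ≤ 1) →
      (∀ n, n₀ ≤ n → ‖τ ((jac F ((pt F)^[n] P)).det)‖ = 1) ∧
      ∀ n, ∃ i, ‖τ ((pt F)^[n] P i)‖ = 1 := by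
  classical
  obtain ⟨hne, n₀, m, hm, ⟨c, hc⟩, hdet⟩ := h
  have hdet' : ∀ n, n₀ ≤ n → (jac F ((pt F)^[n] P)).det ≠ 0 := hdet
  have hc0 : c ≠ 0 := by
    intro h0
    rw [h0, zero_smul] at hc
    exact hne _ hc
  have hcoord : ∀ n, ∃ i, (pt F)^[n] P i ≠ 0 := fun n => by
    by_contra hall
    push Not at hall
    exact hne n (funext hall)
  choose i hi using hcoord
  let s : Finset ℂ := {c, c⁻¹} ∪
    ((Finset.range (n₀ + m)).image fun n => ((pt F)^[n] P (i n))) ∪
    ((Finset.range (n₀ + m)).image fun n => ((pt F)^[n] P (i n))⁻¹) ∪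
    ((Finset.range (n₀ + m)).image fun n => ((jac F ((pt F)^[n] P)).det)) ∪
    ((Finset.range (n₀ + m)).image fun n => ((jac F ((pt F)^[n] P)).det)⁻¹)
  refine ⟨s, n₀, fun K hFK hPK => ?_, fun p hp τ hτ => ?_⟩
  · have horb : ∀ n i, (pt F)^[n] P i ∈ K := fun n => iterate_mem K F hFK P hPK n
    have hdK : ∀ n, (jac F ((pt F)^[n] P)).det ∈ K := fun n => by
      refine det_mem K _ fun i j => ?_
      exact eval_mem_subring K.toSubring _ (horb n) _
        (pderiv_coeff_mem K.toSubring _ (hFK i) j)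
    have hcK : c ∈ K := by
      have h1 : (pt F)^[n₀ + m] P (i n₀) = c * (pt F)^[n₀] P (i n₀) := by
        rw [hc]
        rfl
      have h2 : c = (pt F)^[n₀ + m] P (i n₀) / (pt F)^[n₀] P (i n₀) := by
        rw [h1, mul_div_assoc, div_self (hi n₀), mul_one]
      rw [h2]
      exact K.div_mem (horb _ _) (horb _ _)
    intro y hy
    rw [SetLike.mem_coe]
    simp only [s, Finset.coe_union, Finset.coe_image, Set.mem_union, Set.mem_image,
      Finset.coe_insert, Finset.coe_singleton, Set.mem_insert_iff, Set.mem_singleton_iff] at hy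
    rcases hy with (((((rfl | rfl) | ⟨n, -, rfl⟩) | ⟨n, -, rfl⟩) | ⟨n, -, rfl⟩) | ⟨n, -, rfl⟩)
    · exact hcK
    · exact K.inv_mem hcK
    · exact horb _ _
    · exact K.inv_mem (horb _ _)
    · exact hdK _
    · exact K.inv_mem (hdK _)
  have hone : ∀ y : ℂ, y ≠ 0 → y ∈ s → y⁻¹ ∈ s → ‖τ y‖ = 1 := by
    intro y hy h1 h2
    have e1 := hτ _ h1
    have e2 := hτ _ h2
    rw [map_inv₀, norm_inv] at e2
    refine le_antisymm e1 ?_
    by_contra hlt
    push Not at hlt
    have hpos : 0 < ‖τ y‖ := norm_pos_iff.2 ((map_ne_zero τ).2 hy)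
    have := one_lt_inv_iff₀.2 ⟨hpos, hlt⟩
    linarith
  have hcn : ‖τ c‖ = 1 := hone c hc0 (by simp [s]) (by simp [s])
  have hin : ∀ n < n₀ + m, ‖τ ((pt F)^[n] P (i n))‖ = 1 := by
    intro n hn
    refine hone _ (hi n) ?_ ?_
    · simp only [s, Finset.mem_union]
      exact Or.inl (Or.inl (Or.inl (Or.inr (Finset.mem_image.2
        ⟨n, Finset.mem_range.2 hn, rfl⟩))))
    · simp only [s, Finset.mem_union]
      exact Or.inl (Or.inl (Or.inr (Finset.mem_image.2
        ⟨n, Finset.mem_range.2 hn, rfl⟩)))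
  have hdn : ∀ n < n₀ + m, n₀ ≤ n → ‖τ ((jac F ((pt F)^[n] P)).det)‖ = 1 := by
    intro n hn hn'
    refine hone _ (hdet' n hn') ?_ ?_
    · simp only [s, Finset.mem_union]
      exact Or.inl (Or.inr (Finset.mem_image.2
        ⟨n, Finset.mem_range.2 hn, rfl⟩))
    · simp only [s, Finset.mem_union]
      exact Or.inr (Finset.mem_image.2
        ⟨n, Finset.mem_range.2 hn, rfl⟩)
  constructor
  · intro n hn
    obtain ⟨l, rfl⟩ := Nat.exists_eq_add_of_le hn
    obtain ⟨j, hj, e, hje⟩ := iterate_preperiodic F hF P n₀ m hm c hc l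
    rw [hje, jac_smul F hF, map_mul, norm_mul, map_pow, map_pow, map_pow, norm_pow, norm_pow,
      norm_pow, hcn, one_pow, one_pow, one_pow, one_mul]
    exact hdn _ (by omega) (by omega)
  · intro n
    by_cases hn : n < n₀
    · exact ⟨i n, hin n (by omega)⟩
    · obtain ⟨l, rfl⟩ := Nat.exists_eq_add_of_le (not_lt.1 hn)
      obtain ⟨j, hj, e, hje⟩ := iterate_preperiodic F hF P n₀ m hm c hc l
      refine ⟨i (n₀ + j), ?_⟩
      rw [hje, Pi.smul_apply, smul_eq_mul, map_mul, norm_mul, map_pow, norm_pow, hcn, one_pow,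
        one_mul]
      exact hin _ (by omega)

/-- Values of a polynomial with integral coefficients at two nearby integral points. -/
theorem eval_near {p : ℕ} [hp : Fact p.Prime] (τ : ℂ →+* PadicAlgCl p) (q : Polynomial ℂ)
    (hq : ∀ k, ‖τ (q.coeff k)‖ ≤ 1) (t u : ℂ) (ht : ‖τ t‖ ≤ 1) (hu : ‖τ u‖ ≤ 1)
    (htu : ‖τ t - τ u‖ < 1) :
    ‖τ (q.eval t)‖ ≤ 1 ∧ ‖τ (q.eval t) - τ (q.eval u)‖ < 1 := by
  set O := unitBall (PadicAlgCl p) with hO
  have hlift : q.map τ ∈ Polynomial.lifts O.subtype := by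
    rw [Polynomial.lifts_iff_coeff_lifts]
    intro k
    rw [Polynomial.coeff_map]
    exact ⟨⟨τ (q.coeff k), hq k⟩, rfl⟩
  obtain ⟨Q, hQ⟩ := (Polynomial.mem_lifts _).1 hlift
  have hev : ∀ (z : ℂ) (hz : ‖τ z‖ ≤ 1), ((Q.eval (⟨τ z, hz⟩ : O) : O) : PadicAlgCl p) =
      τ (q.eval z) := by
    intro z hz
    have e1 : ((Q.eval (⟨τ z, hz⟩ : O) : O) : PadicAlgCl p) =
        O.subtype (Q.eval (⟨τ z, hz⟩ : O)) := rfl
    have e2 : O.subtype (Q.eval (⟨τ z, hz⟩ : O)) = (Q.map O.subtype).eval (τ z) := by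
      rw [Polynomial.eval_map]
      exact (Polynomial.eval₂_at_apply O.subtype (⟨τ z, hz⟩ : O)).symm
    rw [e1, e2, hQ, Polynomial.eval_map, Polynomial.eval₂_at_apply]
  constructor
  · rw [← hev t ht]
    exact unitBall_norm_le _
  · rw [← hev t ht, ← hev u hu]
    obtain ⟨r, hr⟩ := Polynomial.sub_dvd_eval_sub (⟨τ t, ht⟩ : O) (⟨τ u, hu⟩ : O) Q
    have e1 : ((Q.eval (⟨τ t, ht⟩ : O) : O) : PadicAlgCl p) -
        ((Q.eval (⟨τ u, hu⟩ : O) : O) : PadicAlgCl p) = (τ t - τ u) * (r : PadicAlgCl p) := by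
      have := congrArg (fun z : O => (z : PadicAlgCl p)) hr
      simpa using this
    rw [e1, norm_mul]
    calc ‖τ t - τ u‖ * ‖(r : PadicAlgCl p)‖ ≤ ‖τ t - τ u‖ * 1 :=
          mul_le_mul_of_nonneg_left (unitBall_norm_le r) (norm_nonneg _)
      _ < 1 := by rwa [mul_one]

end Pool.Agent.Y199.DM
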