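import Pool.Agent.TH838.PS.Emb
import Pool.Agent.Y152.BD.Sm
import Pool.Agent.Y152.BD.Nv

/-!
Embeddings of `ℂ` into the algebraic closure of `ℚ_p` which map given numbers to integral elements
and a given number near to a given rational number (helper file).
-/

set_option autoImplicit false

namespace Pool.Agent.Y199.DM

open Polynomial Pool.Agent.H936R2 Pool.Agent.TH838.PR Pool.Agent.Y152.BD

section root

variable {p : ℕ} [hp : Fact p.Prime]

theorem norm_sub_le_max' (a b : PadicAlgCl p) : ‖a - b‖ ≤ max ‖a‖ ‖b‖ := by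
  rw [sub_eq_add_neg]
  exact (IsUltrametricDist.norm_add_le_max _ _).trans (by rw [norm_neg])

/-- The coefficients of a product of linear factors all of whose roots have norm at least one. -/
theorem coeff_le_of_roots (s : Multiset (PadicAlgCl p)) (hs : ∀ r ∈ s, 1 ≤ ‖r‖) (k : ℕ) :
    ‖((s.map fun r => X - C r).prod).coeff k‖ ≤ ‖((s.map fun r => X - C r).prod).coeff 0‖ := by
  induction s using Multiset.induction_on generalizing k with
  | empty =>
    rw [Multiset.map_zero, Multiset.prod_zero, coeff_one_zero, coeff_one, norm_one]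
    split_ifs <;> simp
  | cons r s ih =>
    have ih' := ih fun a ha => hs a (Multiset.mem_cons_of_mem ha)
    have hr := hs r (Multiset.mem_cons_self r s)
    rw [Multiset.map_cons, Multiset.prod_cons, mul_comm]
    set P := (s.map fun r => X - C r).prod with hP
    have h0 : ‖(P * (X - C r)).coeff 0‖ = ‖P.coeff 0‖ * ‖r‖ := by
      rw [mul_coeff_zero]
      simp
    rw [h0]
    have h1 : ‖P.coeff 0‖ ≤ ‖P.coeff 0‖ * ‖r‖ := le_mul_of_one_le_right (norm_nonneg _) hr
    rcases k with _ | k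
    · rw [h0]
    · rw [coeff_mul_X_sub_C]
      refine (norm_sub_le_max' _ _).trans (max_le ((ih' k).trans h1) ?_)
      rw [norm_mul]
      exact mul_le_mul_of_nonneg_right (ih' _) (norm_nonneg _)

theorem coeff_pow_le (a : PadicAlgCl p) (ha : ‖a‖ ≤ 1) (i k : ℕ) :
    ‖((X - C a) ^ i).coeff k‖ ≤ 1 := by
  induction i generalizing k with
  | zero =>
    rw [pow_zero, coeff_one]
    split_ifs with h
    · simp
    · simp
  | succ i ih =>
    rw [pow_succ]
    rcases k with _ | k
    · rw [mul_coeff_zero, norm_mul]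
      refine mul_le_one₀ (ih 0) (norm_nonneg _) ?_
      simpa using ha
    · rw [coeff_mul_X_sub_C]
      refine (norm_sub_le_max' _ _).trans (max_le (ih k) ?_)
      rw [norm_mul]
      exact mul_le_one₀ (ih _) (norm_nonneg _) ha

theorem norm_natCast_p_lt : ‖((p : ℕ) : PadicAlgCl p)‖ < 1 := by
  have h3 : ((algebraMap ℚ_[p] (PadicAlgCl p)) (p : ℚ_[p])) = ((p : ℕ) : PadicAlgCl p) :=
    map_natCast _ _
  rw [← h3, show (algebraMap ℚ_[p] (PadicAlgCl p)) (p : ℚ_[p]) =
    (((p : ℚ_[p]) : PadicAlgCl p)) from rfl, PadicAlgCl.norm_extends]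
  exact Padic.norm_p_lt_one

theorem norm_int (z : ℤ) : ‖(z : PadicAlgCl p)‖ = ‖(z : ℚ_[p])‖ := by
  have h3 : ((algebraMap ℚ_[p] (PadicAlgCl p)) (z : ℚ_[p])) = ((z : ℤ) : PadicAlgCl p) :=
    map_intCast _ _
  rw [← h3, show (algebraMap ℚ_[p] (PadicAlgCl p)) (z : ℚ_[p]) =
    (((z : ℚ_[p]) : PadicAlgCl p)) from rfl, PadicAlgCl.norm_extends]

theorem dvd_of_norm_lt {z : ℤ} (h : ‖(z : PadicAlgCl p)‖ < 1) : (p : ℤ) ∣ z := by
  rw [norm_int] at h
  exact Padic.norm_intCast_lt_one_iff.1 h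

theorem norm_lt_of_dvd {z : ℤ} (h : (p : ℤ) ∣ z) : ‖(z : PadicAlgCl p)‖ < 1 := by
  rw [norm_int]
  exact Padic.norm_intCast_lt_one_iff.2 h

/-- If `p` divides the value of the primitive polynomial `G` at `α` then `G` has a root near to `α`
in the algebraic closure of `ℚ_p`. -/
theorem exists_root_near {G : ℤ[X]} (hG : G.IsPrimitive) {α : ℚ} (hden : ¬ p ∣ α.den)
    (hdvd : (p : ℤ) ∣ Nv G α) :
    ∃ θ : PadicAlgCl p, aeval θ G = 0 ∧ ‖θ - α‖ < 1 := by
  classical
  by_contra hcon
  push Not at hcon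
  set A := PadicAlgCl p with hA
  let GA : A[X] := G.map (Int.castRingHom A)
  have hGA : ∀ z : A, GA.eval z = aeval z G := by
    intro z
    rw [eval_map, aeval_def]
    rfl
  have hα : ‖(α : A)‖ ≤ 1 := by
    have := norm_rat_le_one (p := p) α hden
    rwa [eq_ratCast] at this
  let H : A[X] := GA.comp (X + C (α : A))
  have hG0 : G ≠ 0 := hG.ne_zero
  have hGA0 : GA ≠ 0 := (Polynomial.map_ne_zero_iff (RingHom.injective_int _)).2 hG0
  have hback : H.comp (X - C (α : A)) = GA := by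
    change (GA.comp (X + C (α : A))).comp (X - C (α : A)) = GA
    rw [comp_assoc, add_comp, X_comp, C_comp, sub_add_cancel, comp_X]
  have hH0 : H ≠ 0 := by
    intro h
    rw [h, zero_comp] at hback
    exact hGA0 hback.symm
  have hprod : H = C H.leadingCoeff * (H.roots.map fun a => X - C a).prod :=
    (IsAlgClosed.splits H).eq_prod_roots
  have hroots : ∀ r ∈ H.roots, 1 ≤ ‖r‖ := by
    intro r hr
    have h1 : H.eval r = 0 := (mem_roots'.1 hr).2
    have h2 : GA.eval (r + α) = 0 := by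
      rw [← h1]
      simp [H, eval_comp]
    have h3 := hcon (r + α) (by rw [← hGA]; exact h2)
    rwa [add_sub_cancel_right] at h3
  have hval : ‖H.coeff 0‖ < 1 := by
    have h1 : H.coeff 0 = aeval (α : A) G := by
      rw [coeff_zero_eq_eval_zero, ← hGA]
      simp [H, eval_comp]
    have h2 : ((Nv G α : ℤ) : A) = (α.den : A) ^ G.natDegree * aeval (α : A) G := by
      refine Nv_map G α (α : A) ?_
      have h3 : (α.den : ℚ) * α = α.num := Rat.den_mul_eq_num α
      exact_mod_cast congrArg (fun q : ℚ => (q : A)) h3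
    have h3 : ‖((α.den : ℕ) : A)‖ = 1 := by
      refine le_antisymm ?_ ?_
      · have := (norm_int (p := p) (α.den : ℤ)).le.trans (Padic.norm_int_le_one _)
        exact_mod_cast this
      · by_contra hlt
        push Not at hlt
        apply hden
        have h4 : ‖((α.den : ℤ) : A)‖ < 1 := by exact_mod_cast hlt
        exact_mod_cast dvd_of_norm_lt h4
    have h4 := norm_lt_of_dvd (p := p) hdvd
    rw [h2, norm_mul, norm_pow, h3, one_pow, one_mul] at h4
    rw [h1]
    exact h4
  have hcoef : ∀ k, ‖H.coeff k‖ < 1 := by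
    intro k
    refine lt_of_le_of_lt ?_ hval
    have h1 : ∀ k, H.coeff k =
        H.leadingCoeff * ((H.roots.map fun a => X - C a).prod).coeff k := by
      intro k
      conv_lhs => rw [hprod]
      rw [coeff_C_mul]
    rw [h1 k, h1 0, norm_mul, norm_mul]
    exact mul_le_mul_of_nonneg_left (coeff_le_of_roots _ hroots k) (norm_nonneg _)
  have hall : ∀ k, ‖GA.coeff k‖ < 1 := by
    intro k
    rw [← hback, comp_eq_sum_left, sum_def, finsetSum_coeff]
    refine lt_of_le_of_lt (IsUltrametricDist.norm_sum_le_of_forall_le_of_nonneg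
      (C := H.support.sup' ?_ fun i => ‖H.coeff i‖) ?_ ?_) ?_
    · exact nonempty_support_iff.2 hH0
    · obtain ⟨i, hi⟩ := nonempty_support_iff.2 hH0
      exact (norm_nonneg _).trans (Finset.le_sup' (fun i => ‖H.coeff i‖) hi)
    · intro i hi
      rw [coeff_C_mul, norm_mul]
      calc ‖H.coeff i‖ * ‖((X - C (α : A)) ^ i).coeff k‖ ≤ ‖H.coeff i‖ * 1 :=
            mul_le_mul_of_nonneg_left (coeff_pow_le _ hα i k) (norm_nonneg _)
        _ = ‖H.coeff i‖ := mul_one _
        _ ≤ _ := Finset.le_sup' (fun i => ‖H.coeff i‖) hi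
    · rw [Finset.sup'_lt_iff]
      exact fun i _ => hcoef i
  have hdiv : C (p : ℤ) ∣ G := by
    rw [C_dvd_iff_dvd_coeff]
    intro k
    refine dvd_of_norm_lt (p := p) ?_
    have h1 := hall k
    rw [coeff_map, eq_intCast] at h1
    exact h1
  have h1 := hG _ hdiv
  rw [Int.isUnit_iff] at h1
  have h2 := hp.out.two_le
  omega

end root

theorem isAlgebraic_transfer {B A C : Type} [CommRing B] [CommRing A] [CommRing C] [Algebra B C]
    [Algebra A C] (ι : B →+* A) (hι : Function.Injective ι)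
    (hcomp : ∀ b, algebraMap A C (ι b) = algebraMap B C b) (h : Algebra.IsAlgebraic B C) :
    Algebra.IsAlgebraic A C := by
  refine ⟨fun z => ?_⟩
  obtain ⟨q, hq0, hq⟩ := h.1 z
  refine ⟨q.map ι, (Polynomial.map_ne_zero_iff hι).2 hq0, ?_⟩
  rw [aeval_def, eval₂_map, show (algebraMap A C).comp ι = algebraMap B C from RingHom.ext hcomp,
    ← aeval_def]
  exact hq

section extension

variable {Q E C : Type} [Field Q] [Field E] [Field C] [Algebra Q E] [Algebra E C] [Algebra Q C]
  [IsScalarTower Q E C]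

theorem adjoin_le_adjoin {S : Set C} {x : C}
    (hx : x ∈ Algebra.adjoin Q S) : x ∈ Algebra.adjoin E S := by
  induction hx using Algebra.adjoin_induction with
  | mem x hx => exact Algebra.subset_adjoin hx
  | algebraMap q =>
    rw [IsScalarTower.algebraMap_apply Q E C]
    exact Subalgebra.algebraMap_mem _ _
  | add x y _ _ hx hy => exact Subalgebra.add_mem _ hx hy
  | mul x y _ _ hx hy => exact Subalgebra.mul_mem _ hx hy

omit [Algebra Q E] [IsScalarTower Q E C] in
theorem isAlgebraic_of_le {A0 : Subalgebra Q C} {A : Subalgebra E C} (hle : ∀ x ∈ A0, x ∈ A)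
    (h : Algebra.IsAlgebraic A0 C) : Algebra.IsAlgebraic A C := by
  let ι0 : A0 →+* A :=
    { toFun := fun b => ⟨b, hle b b.2⟩
      map_one' := rfl
      map_mul' := fun _ _ => rfl
      map_zero' := rfl
      map_add' := fun _ _ => rfl }
  refine isAlgebraic_transfer ι0 ?_ ?_ h
  · intro a b h
    apply Subtype.ext
    have := congrArg (fun z : A => (z : C)) h
    exact this
  · intro b
    rfl

theorem exists_extension {A Ω : Type} [CommRing A] [IsDomain A] [Algebra A C]
    (hA : Function.Injective (algebraMap A C)) [Algebra.IsAlgebraic A C] [Field Ω] [IsAlgClosed Ω]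
    (ψ : A →+* Ω) (hψ : Function.Injective ψ) :
    ∃ τ : C →+* Ω, ∀ a, τ (algebraMap A C a) = ψ a := by
  letI : Algebra A Ω := ψ.toAlgebra
  have hf : FaithfulSMul A Ω := (faithfulSMul_iff_algebraMap_injective A Ω).2 hψ
  have hf' : FaithfulSMul A C := (faithfulSMul_iff_algebraMap_injective A C).2 hA
  let τ : C →ₐ[A] Ω := IsAlgClosed.lift
  exact ⟨τ.toRingHom, fun a => τ.commutes a⟩

theorem exists_extension' {Ω : Type} [Field Ω] [Algebra Q Ω] [IsAlgClosed Ω]
    (hE : Algebra.IsAlgebraic Q E) (φ : E →ₐ[Q] Ω) {s : Set C}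
    (hs : IsTranscendenceBasis Q ((↑) : s → C)) (w : s → Ω) (hw : AlgebraicIndependent Q w) :
    ∃ τ : C →+* Ω, (∀ e : E, τ (algebraMap E C e) = φ e) ∧ ∀ b : s, τ b = w b := by
  have hsE : AlgebraicIndependent E ((↑) : s → C) := hs.1.extendScalars E
  letI : Algebra E Ω := φ.toRingHom.toAlgebra
  have hst : IsScalarTower Q E Ω := IsScalarTower.of_algebraMap_eq fun q => by
    rw [RingHom.algebraMap_toAlgebra]
    exact (φ.commutes q).symm
  have hwE : AlgebraicIndependent E w := hw.extendScalars E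
  have hinj : Function.Injective (MvPolynomial.aeval w : MvPolynomial s E →ₐ[E] Ω) :=
    algebraicIndependent_iff_injective_aeval.1 hwE
  have halg0 : Algebra.IsAlgebraic (Algebra.adjoin Q (Set.range ((↑) : s → C))) C :=
    hs.isAlgebraic
  have halg : Algebra.IsAlgebraic (Algebra.adjoin E (Set.range ((↑) : s → C))) C :=
    isAlgebraic_of_le (fun x hx => adjoin_le_adjoin hx) halg0
  let σ : Algebra.adjoin E (Set.range ((↑) : s → C)) →ₐ[E] MvPolynomial s E :=
    hsE.aevalEquiv.symm.toAlgHom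
  have hσ : Function.Injective σ := hsE.aevalEquiv.symm.injective
  obtain ⟨τ, hτ⟩ := exists_extension (A := Algebra.adjoin E (Set.range ((↑) : s → C)))
    Subtype.val_injective
    ((MvPolynomial.aeval w : MvPolynomial s E →ₐ[E] Ω).comp σ).toRingHom
    (hinj.comp hσ)
  refine ⟨τ, fun e => ?_, fun b => ?_⟩
  · have e2 := hτ (algebraMap E _ e)
    have e3 : ((MvPolynomial.aeval w : MvPolynomial s E →ₐ[E] Ω).comp σ).toRingHom
      (algebraMap E _ e) = φ e := AlgHom.commutes _ e
    rw [e3] at e2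
    exact e2
  · have e2 := hτ (hsE.aevalEquiv (MvPolynomial.X b))
    have e0 : algebraMap (Algebra.adjoin E (Set.range ((↑) : s → C))) C
        (hsE.aevalEquiv (MvPolynomial.X b)) = (b : C) := by
      change ((hsE.aevalEquiv (MvPolynomial.X b) :
        Algebra.adjoin E (Set.range ((↑) : s → C))) : C) = b
      simp
    have e3 : ((MvPolynomial.aeval w : MvPolynomial s E →ₐ[E] Ω).comp σ).toRingHom
        (hsE.aevalEquiv (MvPolynomial.X b)) = w b := by
      change (MvPolynomial.aeval w : MvPolynomial s E →ₐ[E] Ω)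
        (hsE.aevalEquiv.symm (hsE.aevalEquiv (MvPolynomial.X b))) = w b
      rw [AlgEquiv.symm_apply_apply, MvPolynomial.aeval_X]
    rw [e0, e3] at e2
    exact e2
end extension

/-- Algebraically independent numbers can be mapped to integral elements, and an algebraic number to
a given conjugate. -/
theorem emb_alg_indep (p : ℕ) [hp : Fact p.Prime] {m : ℕ} (y : Fin m → ℂ)
    (hy : AlgebraicIndependent ℚ y) (t : ℂ) (ht : IsIntegral ℚ t) (θ : PadicAlgCl p)
    (hθ : aeval θ (minpoly ℚ t) = 0) :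
    ∃ τ : ℂ →+* PadicAlgCl p, (∀ j, ‖τ (y j)‖ ≤ 1) ∧ τ t = θ := by
  classical
  obtain ⟨τ₀⟩ := exists_embedding p
  have hp1 : ‖((p : ℕ) : PadicAlgCl p)‖ < 1 := norm_natCast_p_lt
  obtain ⟨N, hN⟩ : ∃ N : ℕ, ∀ j, ‖((p : ℕ) : PadicAlgCl p) ^ N * τ₀ (y j)‖ ≤ 1 := by
    have hB : ∃ B : ℝ, 1 ≤ B ∧ ∀ j, ‖τ₀ (y j)‖ ≤ B := by
      refine ⟨1 + ∑ j, ‖τ₀ (y j)‖, ?_, fun j => ?_⟩
      · have : 0 ≤ ∑ j, ‖τ₀ (y j)‖ := Finset.sum_nonneg fun _ _ => norm_nonneg _
        linarith
      · have := Finset.single_le_sum (f := fun j => ‖τ₀ (y j)‖) (fun _ _ => norm_nonneg _)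
          (Finset.mem_univ j)
        linarith
    obtain ⟨B, hB1, hB⟩ := hB
    obtain ⟨N, hN⟩ := exists_pow_lt_of_lt_one (show (0 : ℝ) < 1 / B by positivity) hp1
    refine ⟨N, fun j => ?_⟩
    rw [norm_mul, norm_pow]
    calc ‖((p : ℕ) : PadicAlgCl p)‖ ^ N * ‖τ₀ (y j)‖ ≤ (1 / B) * B :=
          mul_le_mul hN.le (hB j) (norm_nonneg _) (by positivity)
      _ = 1 := by field_simp
  obtain ⟨s, hs0, hs⟩ := exists_isTranscendenceBasis_superset (R := ℚ) (s := Set.range y)
    hy.to_subtype_range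
  let σ₀ : ℂ →ₐ[ℚ] PadicAlgCl p := τ₀.toRatAlgHom
  have hw0 : AlgebraicIndependent ℚ (fun b : s => σ₀ (b : ℂ)) :=
    hs.1.map' (f := σ₀) σ₀.toRingHom.injective
  have hw : AlgebraicIndependent ℚ
      (fun b : s => algebraMap ℚ (PadicAlgCl p) ((p : ℚ) ^ N) * σ₀ (b : ℂ)) :=
    indep_scale hw0 _ (pow_ne_zero _ (by exact_mod_cast hp.out.ne_zero))
  -- the field of `t`
  let E := IntermediateField.adjoin ℚ {t}
  let pb := IntermediateField.adjoin.powerBasis ht
  let φ : E →ₐ[ℚ] PadicAlgCl p := pb.lift θ (by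
    rw [IntermediateField.adjoin.powerBasis_gen ht, IntermediateField.minpoly_gen ℚ t]
    exact hθ)
  have hφ : φ (IntermediateField.AdjoinSimple.gen ℚ t) = θ := by
    have h2 : IntermediateField.AdjoinSimple.gen ℚ t = pb.gen :=
      (IntermediateField.adjoin.powerBasis_gen ht).symm
    rw [h2]
    exact pb.lift_gen θ _
  have hfd : FiniteDimensional ℚ E := IntermediateField.adjoin.finiteDimensional ht
  have hEalg : Algebra.IsAlgebraic ℚ E := Algebra.IsAlgebraic.of_finite ℚ E
  obtain ⟨τ, hτE, hτs⟩ := exists_extension' (Q := ℚ) (E := E) (C := ℂ) hEalg φ hs _ hw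
  refine ⟨τ, fun j => ?_, ?_⟩
  · have hmem : y j ∈ s := hs0 ⟨j, rfl⟩
    have e2 := hτs ⟨y j, hmem⟩
    have e4 : algebraMap ℚ (PadicAlgCl p) ((p : ℚ) ^ N) = ((p : ℕ) : PadicAlgCl p) ^ N := by
      rw [map_pow, map_natCast]
    rw [e4] at e2
    rw [e2]
    exact hN j
  · have h1 := hτE (IntermediateField.AdjoinSimple.gen ℚ t)
    rw [hφ] at h1
    rw [← h1]
    exact congrArg τ (IntermediateField.AdjoinSimple.algebraMap_gen ℚ t).symm

/-- The Noether normalization of finitely many complex numbers: images which are integral on a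
suitable transcendence basis are integral at almost all primes. -/
theorem exists_noether (s : Finset ℂ) : ∃ (m : ℕ) (y : Fin m → ℂ), AlgebraicIndependent ℚ y ∧
    (∀ j, y j ∈ Algebra.adjoin ℚ (s : Set ℂ)) ∧
    ∃ N : ℕ, ∀ (p : ℕ) [Fact p.Prime], N < p → ∀ τ : ℂ →+* PadicAlgCl p,
      (∀ j, ‖τ (y j)‖ ≤ 1) → ∀ x ∈ s, ‖τ x‖ ≤ 1 := by
  classical
  let R := Algebra.adjoin ℚ (s : Set ℂ)
  have hfg : Algebra.FiniteType ℚ R :=
    (Subalgebra.fg_iff_finiteType _).1 (Subalgebra.fg_adjoin_finset s)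
  obtain ⟨t, g, hinj, hint⟩ := exists_integral_inj_algHom_of_fg ℚ R
  have hmem : ∀ x ∈ s, x ∈ R := fun x hx => Algebra.subset_adjoin hx
  have h1 : ∀ x : s, ∃ f : Polynomial (MvPolynomial (Fin t) ℚ), f.Monic ∧
      Polynomial.eval₂ g.toRingHom (⟨x, hmem x x.2⟩ : R) f = 0 := fun x => hint _
  choose f hf h0 using h1
  choose N hN using fun x : s => den_bound (f x)
  let y : Fin t → ℂ := fun j => ((g (MvPolynomial.X j) : R) : ℂ)
  have hy1 : (MvPolynomial.aeval y : MvPolynomial (Fin t) ℚ →ₐ[ℚ] ℂ) = R.val.comp g := by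
    apply MvPolynomial.algHom_ext
    intro i
    simp [y]
  have hy : AlgebraicIndependent ℚ y := by
    rw [algebraicIndependent_iff_injective_aeval, hy1, AlgHom.coe_comp]
    exact Subtype.val_injective.comp hinj
  refine ⟨t, y, hy, fun j => (g (MvPolynomial.X j)).2, Finset.univ.sup N,
    fun p hp hlt τ hτ x hx => ?_⟩
  let ρ : R →+* PadicAlgCl p := τ.comp R.val.toRingHom
  have h3 : ρ (Polynomial.eval₂ g.toRingHom (⟨x, hmem x hx⟩ : R) (f ⟨x, hx⟩)) = 0 := by
    rw [h0 ⟨x, hx⟩, map_zero]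
  rw [Polynomial.hom_eval₂] at h3
  have h4 : ρ (⟨x, hmem x hx⟩ : R) = τ x := rfl
  rw [h4] at h3
  refine norm_le_one_of_monic ((f ⟨x, hx⟩).map (ρ.comp g.toRingHom)) ((hf _).map _) (fun i => ?_)
    (by rw [Polynomial.eval_map]; exact h3)
  rw [Polynomial.coeff_map]
  have h5 : ∀ c : MvPolynomial (Fin t) ℚ, (ρ.comp g.toRingHom) c =
      MvPolynomial.aeval (fun j => τ (y j)) c := by
    intro c
    have h6 : (ρ.comp g.toRingHom).toRatAlgHom =
        (MvPolynomial.aeval (fun j => τ (y j)) : MvPolynomial (Fin t) ℚ →ₐ[ℚ] PadicAlgCl p) := by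
      apply MvPolynomial.algHom_ext
      intro j
      rw [MvPolynomial.aeval_X]
      rfl
    exact DFunLike.congr_fun h6 c
  rw [h5]
  refine norm_aeval_le _ hτ _ fun e hdvd => ?_
  have h7 := Nat.le_of_dvd (Rat.den_pos _) hdvd
  have h8 := hN ⟨x, hx⟩ i e
  have h9 := Finset.le_sup (f := N) (Finset.mem_univ (⟨x, hx⟩ : s))
  omega

/-- For almost all `p` dividing the value at `α` of the minimal polynomial of `t` there is an
embedding which maps the elements of `s` to integral elements and `t` near to `α`. -/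
theorem emb_alg (s : Finset ℂ) : ∃ D : ℕ, ∀ (p : ℕ) [Fact p.Prime], D < p → ∀ (t : ℂ) (G : ℤ[X]),
    Irreducible G → aeval t G = 0 → ∀ α : ℚ, ¬ p ∣ α.den → (p : ℤ) ∣ Nv G α →
    ∃ τ : ℂ →+* PadicAlgCl p, (∀ x ∈ s, ‖τ x‖ ≤ 1) ∧ ‖τ t - α‖ < 1 := by
  classical
  obtain ⟨m, y, hy, -, D, hD⟩ := exists_noether s
  refine ⟨D, fun p hp hlt t G hG hGt α hden hdvd => ?_⟩
  have hdeg : G.natDegree ≠ 0 := by
    intro h0
    rw [Polynomial.eq_C_of_natDegree_eq_zero h0] at hGt hG
    rw [aeval_C] at hGt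
    have h1 : G.coeff 0 = 0 := by
      have h2 : ((G.coeff 0 : ℤ) : ℂ) = 0 := hGt
      exact_mod_cast h2
    rw [h1, C_0] at hG
    exact not_irreducible_zero hG
  have hprim : G.IsPrimitive := hG.isPrimitive hdeg
  obtain ⟨θ, hθ, hθα⟩ := exists_root_near (p := p) hprim hden hdvd
  have ht : IsIntegral ℚ t := by
    have h1 : IsAlgebraic ℤ t := ⟨G, hprim.ne_zero, hGt⟩
    exact (h1.extendScalars (Int.cast_injective (α := ℚ))).isIntegral
  obtain ⟨τ, hτ1, hτ2⟩ := emb_alg_indep p y hy t ht θ (by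
    -- the minimal polynomial of `t` is a multiple of `G`
    have h1 : Irreducible (G.map (Int.castRingHom ℚ)) :=
      (Polynomial.IsPrimitive.Int.irreducible_iff_irreducible_map_cast hprim).1 hG
    have h2 : aeval t (G.map (Int.castRingHom ℚ)) = 0 := by
      have h3 : aeval t (G.map (Int.castRingHom ℚ)) = aeval t G :=
        Polynomial.aeval_map_algebraMap ℚ t G
      rw [h3]
      exact hGt
    have h3 : minpoly ℚ t ∣ G.map (Int.castRingHom ℚ) := minpoly.dvd ℚ t h2
    have h4 : G.map (Int.castRingHom ℚ) ∣ minpoly ℚ t :=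
      (h1.dvd_iff.1 h3).resolve_left (fun h => (minpoly.irreducible ht).not_isUnit h) |>.dvd
    obtain ⟨q, hq⟩ := h4
    have h5 : aeval θ (G.map (Int.castRingHom ℚ)) = 0 := by
      have h6 : aeval θ (G.map (Int.castRingHom ℚ)) = aeval θ G :=
        Polynomial.aeval_map_algebraMap ℚ θ G
      rw [h6]
      exact hθ
    rw [hq, map_mul, h5, zero_mul])
  exact ⟨τ, hD p hlt τ hτ1, by rw [hτ2]; exact hθα⟩

theorem adjoin_subset_subfield (K : Subfield ℂ) {S : Set ℂ} (hS : S ⊆ K) {x : ℂ}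
    (hx : x ∈ Algebra.adjoin ℚ S) : x ∈ K := by
  induction hx using Algebra.adjoin_induction with
  | mem x hx => exact hS hx
  | algebraMap q =>
    rw [eq_ratCast]
    exact SubfieldClass.ratCast_mem K q
  | add x y _ _ hx hy => exact K.add_mem hx hy
  | mul x y _ _ hx hy => exact K.mul_mem hx hy

/-- For almost all `p` there is an embedding which maps the elements of `s` to integral elements and
`t` near to `α`, if `t` is transcendental over a field which contains `s`. -/
theorem emb_transc (K : Subfield ℂ) (s : Finset ℂ) (hs : (s : Set ℂ) ⊆ K) (t : ℂ)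
    (ht : Transcendental K t) (α : ℚ) : ∃ D : ℕ, ∀ (p : ℕ) [Fact p.Prime], D < p →
    ∃ τ : ℂ →+* PadicAlgCl p, (∀ x ∈ s, ‖τ x‖ ≤ 1) ∧ ‖τ t - α‖ < 1 := by
  classical
  obtain ⟨m, y, hy, hys, D, hD⟩ := exists_noether s
  have hyK : ∀ j, y j ∈ K := by
    intro j
    exact adjoin_subset_subfield K hs (hys j)
  let yK : Fin m → K := fun j => ⟨y j, hyK j⟩
  have hopt : AlgebraicIndependent ℚ (fun o : Option (Fin m) => o.elim t y) := by
    rw [hy.option_iff_transcendental]
    intro halg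
    apply ht
    have h1 : ∀ x ∈ Algebra.adjoin ℚ (Set.range y), x ∈ K := fun x hx =>
      adjoin_subset_subfield K (by
        rintro _ ⟨j, rfl⟩
        exact hyK j) hx
    obtain ⟨q, hq0, hq⟩ := halg
    let ι0 : Algebra.adjoin ℚ (Set.range y) →+* K :=
      (Subring.inclusion (S := (Algebra.adjoin ℚ (Set.range y)).toSubring)
        (T := K.toSubring) h1)
    have hι : Function.Injective ι0 := fun a b h =>
      Subtype.ext (show (a : ℂ) = b from congrArg (fun z : K => (z : ℂ)) h)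
    refine ⟨q.map ι0, (Polynomial.map_ne_zero_iff hι).2 hq0, ?_⟩
    rw [aeval_def, eval₂_map]
    rw [aeval_def] at hq
    exact hq
  let e : Fin (m + 1) ≃ Option (Fin m) := finSuccEquiv m
  have hind : AlgebraicIndependent ℚ (fun i : Fin (m + 1) => (e i).elim t y) :=
    hopt.comp e e.injective
  refine ⟨D + α.den, fun p hp hlt => ?_⟩
  obtain ⟨τ, hτ⟩ := Pool.Agent.TH838.PS.emb_near p
    (fun i : Fin (m + 1) => (e i).elim t y) hind
    (fun i => (e i).elim (α : PadicAlgCl p) (fun _ => 0)) (fun i => by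
      rcases e i with _ | j
      · exact isAlgebraic_algebraMap (R := ℚ) (A := PadicAlgCl p) α |> fun h => by
          rwa [eq_ratCast] at h
      · exact isAlgebraic_zero)
  refine ⟨τ, hD p (by omega) τ (fun j => ?_), ?_⟩
  · have h1 := hτ (e.symm (some j))
    simp only [Equiv.apply_symm_apply, Option.elim_some, sub_zero] at h1
    exact h1.le
  · have h1 := hτ (e.symm none)
    simp only [Equiv.apply_symm_apply, Option.elim_none] at h1
    exact h1

end Pool.Agent.Y199.DM
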