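import Pool.Agent.Y199.DM.One
import Pool.Agent.Y556.TW.SI

/-!
Points of number fields which are near to one of three algebraic numbers at a large place (helper
file).
-/

set_option autoImplicit false

namespace Pool.Agent.Y199.DM

open Polynomial NumberField IsDedekindDomain Pool.Agent.H936R2 Pool.Agent.Y152.BD
open Pool.Agent.Helper259.AbsHt
open Pool.Agent.Y556.TW (Ov mem_Ov bad_finite GS GS_fg mem_GS unit_eq)

/-- Embeddings for which an algebraic number is near to zero. -/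
theorem emb_zero (s : Finset ℂ) : ∃ D : ℕ, ∀ (p : ℕ) [Fact p.Prime], D < p → ∀ (u : ℂ) (G : ℤ[X]),
    Irreducible G → aeval u G = 0 → (p : ℤ) ∣ G.coeff 0 →
    ∃ τ : ℂ →+* PadicAlgCl p, (∀ x ∈ s, ‖τ x‖ ≤ 1) ∧ ‖τ u‖ < 1 := by
  obtain ⟨D, hD⟩ := emb_alg s
  refine ⟨D, fun p hp hlt u G hG hGu hdvd => ?_⟩
  obtain ⟨τ, h1, h2⟩ := hD p hlt u G hG hGu 0 (by
    intro h
    have h3 : p ∣ 1 := by simpa using h
    exact hp.1.one_lt.ne' (Nat.dvd_one.1 h3)) (by
    have h3 : Nv G 0 = G.coeff 0 := by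
      rw [Nv, Finset.sum_range_succ']
      simp
    rw [h3]
    exact hdvd)
  refine ⟨τ, h1, ?_⟩
  simpa using h2

section

variable {L : IntermediateField ℚ Qbar} [NumberField L]

theorem val_int_le (v : HeightOneSpectrum (𝓞 L)) (z : ℤ) : v.valuation L (z : L) ≤ 1 := by
  have h := v.valuation_le_one (K := L) (z : 𝓞 L)
  simpa using h

theorem val_aeval_le (v : HeightOneSpectrum (𝓞 L)) (G : ℤ[X]) (w : L)
    (hw : v.valuation L w ≤ 1) : v.valuation L (aeval w G) ≤ 1 := by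
  rw [aeval_eq_sum_range]
  refine Valuation.map_sum_le _ fun i _ => ?_
  rw [zsmul_eq_mul, map_mul, map_pow]
  exact mul_le_one' (val_int_le v _) (pow_le_one' hw i)

theorem dvd_coeff_zero (v : HeightOneSpectrum (𝓞 L)) {p : ℕ} (hp : p.Prime)
    (hvp : v.valuation L (p : L) < 1) (G : ℤ[X]) (w : L) (hw : v.valuation L w < 1)
    (hG : aeval w G = 0) : (p : ℤ) ∣ G.coeff 0 := by
  have h1 : ((G.coeff 0 : ℤ) : L) = -(w * aeval w G.divX) := by
    have h2 : aeval w (G.divX * X + C (G.coeff 0)) = 0 := by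
      rw [divX_mul_X_add]
      exact hG
    rw [map_add, map_mul, aeval_X, aeval_C] at h2
    have h3 : algebraMap ℤ L (G.coeff 0) = ((G.coeff 0 : ℤ) : L) := rfl
    rw [h3] at h2
    linear_combination h2
  have h2 : v.valuation L ((G.coeff 0 : ℤ) : L) < 1 := by
    rw [h1, Valuation.map_neg, map_mul]
    exact mul_lt_one_of_lt_of_le hw (val_aeval_le v _ w hw.le)
  by_contra hdvd
  have hpp : Prime (p : ℤ) := Nat.prime_iff_prime_int.1 hp
  obtain ⟨a, b, hab⟩ := (Irreducible.coprime_iff_not_dvd hpp.irreducible).2 hdvd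
  have h3 : v.valuation L (((a * p + b * G.coeff 0 : ℤ)) : L) < 1 := by
    push_cast
    refine Valuation.map_add_lt _ ?_ ?_
    · rw [map_mul]
      exact lt_of_le_of_lt ((mul_le_mul' (val_int_le v a) le_rfl).trans_eq (one_mul _)) hvp
    · rw [map_mul]
      exact lt_of_le_of_lt ((mul_le_mul' (val_int_le v b) le_rfl).trans_eq (one_mul _)) h2
  rw [hab, Int.cast_one, map_one] at h3
  exact lt_irrefl _ h3

theorem exists_prime_lt (v : HeightOneSpectrum (𝓞 L)) :
    ∃ p : ℕ, p.Prime ∧ v.valuation L (p : L) < 1 := by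
  have h0 : Ideal.absNorm v.asIdeal ≠ 0 := by
    rw [Ne, Ideal.absNorm_eq_zero_iff]
    exact v.ne_bot
  have h1 : v.valuation L ((Ideal.absNorm v.asIdeal : ℕ) : L) < 1 := by
    have h2 : ((Ideal.absNorm v.asIdeal : ℕ) : 𝓞 L) ∈ v.asIdeal := Ideal.absNorm_mem _
    have h3 := (v.valuation_lt_one_iff_mem (K := L) ((Ideal.absNorm v.asIdeal : ℕ) : 𝓞 L)).2 h2
    simpa using h3
  by_contra hcon
  push Not at hcon
  have key : ∀ n : ℕ, n ≠ 0 → 1 ≤ v.valuation L (n : L) := by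
    intro n
    induction n using Nat.recOnMul with
    | zero => exact fun h => absurd rfl h
    | one => intro _; simp
    | prime p hp => exact fun _ => hcon p hp
    | mul a b ha hb =>
      intro hab
      rw [Nat.cast_mul, map_mul]
      exact one_le_mul (ha (left_ne_zero_of_mul hab)) (hb (right_ne_zero_of_mul hab))
  exact absurd h1 (not_lt.2 (key _ h0))

/-- Embeddings given by places of number fields. -/
theorem near_place (s : Finset ℂ) : ∃ D : ℕ, ∀ (L : IntermediateField ℚ Qbar) [NumberField L]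
    (v : HeightOneSpectrum (𝓞 L)), (∀ p : ℕ, p.Prime → p ≤ D → ¬ v.valuation L (p : L) < 1) →
    ∀ (w : L) (u : ℂ), IsAlgebraic ℚ u → (∀ G : ℤ[X], aeval u G = 0 → aeval w G = 0) →
      v.valuation L w < 1 → ∃ (p : ℕ) (_ : Fact p.Prime) (τ : ℂ →+* PadicAlgCl p),
        (∀ x ∈ s, ‖τ x‖ ≤ 1) ∧ ‖τ u‖ < 1 := by
  obtain ⟨D, hD⟩ := emb_zero s
  refine ⟨D, fun L _ v hv w u hu huw hw => ?_⟩
  obtain ⟨P, hP0, hPu⟩ := (IsFractionRing.isAlgebraic_iff ℤ ℚ ℂ).mpr hu
  obtain ⟨G, hG, -, hGu⟩ := DegLE.exists_irreducible (d := P.natDegree) (τ := u)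
    ⟨P, hP0, le_rfl, hPu⟩
  obtain ⟨p, hp, hvp⟩ := exists_prime_lt v
  have hlt : D < p := by
    by_contra h
    exact hv p hp (not_lt.1 h) hvp
  haveI : Fact p.Prime := ⟨hp⟩
  obtain ⟨τ, h1, h2⟩ := hD p hlt u G hG hGu (dvd_coeff_zero v hp hvp G w hw (huw G hGu))
  exact ⟨p, ⟨hp⟩, τ, h1, h2⟩

/-- The places over the small primes and a finite set of elements. -/
theorem finite_small (D : ℕ) :
    {v : HeightOneSpectrum (𝓞 L) | ∃ p : ℕ, p.Prime ∧ p ≤ D ∧ v.valuation L (p : L) < 1}.Finite := by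
  have h1 := bad_finite (K := L) ((fun p : ℕ => ((p : Qbar))⁻¹) '' {p | p ≤ D ∧ p ≠ 0})
    ((Set.finite_Iic D).subset (fun p hp => hp.1) |>.image _) (by
      rintro _ ⟨p, -, rfl⟩
      exact L.inv_mem (natCast_mem L p))
  refine h1.subset ?_
  rintro v ⟨p, hp, hpD, hvp⟩
  refine ⟨_, ⟨p, ⟨hpD, hp.ne_zero⟩, rfl⟩, fun h => ?_⟩
  have h2 : (((p : L)⁻¹ : L) : Qbar) = ((p : Qbar))⁻¹ := by simp
  change ((p : Qbar))⁻¹ ∈ Ov v at h
  rw [← h2, mem_Ov, map_inv₀] at h
  have h3 : v.valuation L (p : L) ≠ 0 := by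
    rw [Ne, map_eq_zero]
    exact_mod_cast hp.ne_zero
  exact absurd ((inv_le_one₀ (zero_lt_iff.2 h3)).1 h) (not_le.2 hvp)

theorem mem_GS' {S : Set (HeightOneSpectrum (𝓞 L))} {w : L} (hw0 : w ≠ 0)
    (hw : ∀ v, v ∉ S → v.valuation L w = 1) :
    Units.mk0 (w : Qbar) (fun h => hw0 (Subtype.ext h)) ∈ GS S := by
  refine mem_GS _ w.2 fun v hv => ⟨?_, ?_⟩
  · rw [mem_Ov, hw v hv]
  · have h2 : ((w⁻¹ : L) : Qbar) = (w : Qbar)⁻¹ := by simp
    rw [← h2, mem_Ov, map_inv₀, hw v hv, inv_one]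

/-- The points of a number field which are not near to one of three points. -/
theorem finite_far3 (S : Set (HeightOneSpectrum (𝓞 L))) (hS : S.Finite) (b : Fin 3 → L)
    (hb : Function.Injective b) :
    {t : L | ∀ v, v ∉ S → ∀ i, ¬ v.valuation L (t - b i) < 1}.Finite := by
  classical
  -- the places
  let S' : Set (HeightOneSpectrum (𝓞 L)) := S ∪
    {v | ∃ w ∈ Set.range fun i => ((b i : L) : Qbar), w ∉ Ov v}
  have hS' : S'.Finite := hS.union (bad_finite _ (Set.finite_range _) (by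
    rintro _ ⟨i, rfl⟩
    exact (b i).2))
  have hbv : ∀ v, v ∉ S' → ∀ i, v.valuation L (b i) ≤ 1 := by
    intro v hv i
    by_contra h
    exact hv (Or.inr ⟨_, ⟨i, rfl⟩, fun h2 => h ((mem_Ov _).1 h2)⟩)
  have h01 : b 0 - b 1 ≠ 0 := sub_ne_zero.2 (hb.ne (by decide))
  have h10 : b 1 - b 0 ≠ 0 := sub_ne_zero.2 (hb.ne (by decide))
  have h12 : b 1 - b 2 ≠ 0 := sub_ne_zero.2 (hb.ne (by decide))
  have h20 : b 2 - b 0 ≠ 0 := sub_ne_zero.2 (hb.ne (by decide))
  let c1 : L := (b 1 - b 2) / (b 1 - b 0)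
  let c2 : L := (b 2 - b 0) / (b 1 - b 0)
  have hc1 : c1 ≠ 0 := div_ne_zero h12 h10
  have hc2 : c2 ≠ 0 := div_ne_zero h20 h10
  let Γ : Subgroup Qbarˣ := GS S' ⊔ Subgroup.closure
    {Units.mk0 (c1 : Qbar) (fun h => hc1 (Subtype.ext h)),
      Units.mk0 (c2 : Qbar) (fun h => hc2 (Subtype.ext h))}
  have hΓ : Γ.FG := (GS_fg S' hS').sup ⟨{Units.mk0 (c1 : Qbar) (fun h => hc1 (Subtype.ext h)),
      Units.mk0 (c2 : Qbar) (fun h => hc2 (Subtype.ext h))}, by simp⟩
  have hfin := unit_eq Γ hΓ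
  -- the map
  have hfin2 : {t : L | t ≠ b 2 ∧
      ((c1 * ((t - b 0) / (t - b 2)) : L) : Qbar) ∈
        {u : Qbar | ∃ v ∈ Γ, ∃ w ∈ Γ, u = v ∧ (v : Qbar) + w = 1}}.Finite := by
    refine Set.Finite.of_finite_image (f := fun t : L =>
      ((c1 * ((t - b 0) / (t - b 2)) : L) : Qbar)) (hfin.subset ?_) ?_
    · rintro _ ⟨t, ht, rfl⟩
      exact ht.2
    · intro t ht t' ht' h
      have h1 : c1 * ((t - b 0) / (t - b 2)) = c1 * ((t' - b 0) / (t' - b 2)) := Subtype.ext h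
      have h2 := mul_left_cancel₀ hc1 h1
      have h3 : t - b 2 ≠ 0 := sub_ne_zero.2 ht.1
      have h4 : t' - b 2 ≠ 0 := sub_ne_zero.2 ht'.1
      rw [div_eq_div_iff h3 h4] at h2
      have h5 : (b 2 - b 0) * (t' - t) = 0 := by linear_combination h2
      rcases mul_eq_zero.1 h5 with h6 | h6
      · exact absurd h6 h20
      · exact (sub_eq_zero.1 h6).symm
  refine (hfin2.union (Set.finite_range b)).subset fun t ht => ?_
  by_cases htb : t ∈ Set.range b
  · exact Or.inr htb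
  refine Or.inl ?_
  have hne : ∀ i, t - b i ≠ 0 := fun i h => htb ⟨i, (sub_eq_zero.1 h).symm⟩
  have hval : ∀ v, v ∉ S' → ∀ i, v.valuation L ((t - b i) / (t - b 2)) = 1 := by
    intro v hv i
    have h1 := ht v (fun h => hv (Or.inl h))
    have h2 : ∀ i, v.valuation L (t - b i) = max (v.valuation L t) 1 := by
      intro i
      rcases le_or_gt (v.valuation L t) 1 with h3 | h3
      · rw [max_eq_right h3]
        refine le_antisymm ?_ (not_lt.1 (h1 i))
        exact (Valuation.map_sub _ _ _).trans (max_le h3 (hbv v hv i))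
      · rw [max_eq_left h3.le]
        exact Valuation.map_sub_eq_of_lt_left _ (lt_of_le_of_lt (hbv v hv i) h3)
    rw [map_div₀, h2, h2, div_self]
    exact (lt_of_lt_of_le zero_lt_one (le_max_right _ _)).ne'
  refine ⟨fun h => htb ⟨2, h.symm⟩, ?_⟩
  have hr : ∀ i, (t - b i) / (t - b 2) ≠ 0 := fun i => div_ne_zero (hne i) (hne 2)
  have hmem : ∀ i, Units.mk0 (((t - b i) / (t - b 2) : L) : Qbar)
      (fun h => hr i (Subtype.ext h)) ∈ Γ := fun i =>
    (le_sup_left : GS S' ≤ Γ) (mem_GS' (hr i) fun v hv => hval v hv i)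
  have hc1m : Units.mk0 (c1 : Qbar) (fun h => hc1 (Subtype.ext h)) ∈ Γ :=
    (le_sup_right : _ ≤ Γ) (Subgroup.subset_closure (by simp))
  have hc2m : Units.mk0 (c2 : Qbar) (fun h => hc2 (Subtype.ext h)) ∈ Γ :=
    (le_sup_right : _ ≤ Γ) (Subgroup.subset_closure (by simp))
  refine ⟨_, Γ.mul_mem hc1m (hmem 0), _, Γ.mul_mem hc2m (hmem 1), ?_, ?_⟩
  · rw [Units.val_mul, Units.val_mk0, Units.val_mk0]
    push_cast
    ring
  · rw [Units.val_mul, Units.val_mk0, Units.val_mk0, Units.val_mul, Units.val_mk0, Units.val_mk0]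
    have h1 : c1 * ((t - b 0) / (t - b 2)) + c2 * ((t - b 1) / (t - b 2)) = 1 := by
      have h2 := hne 2
      simp only [c1, c2]
      field_simp
      ring
    have h2 := congrArg (fun z : L => (z : Qbar)) h1
    simpa using h2

/-- The integral points which are not near to one of two points. -/
theorem finite_far2 (S : Set (HeightOneSpectrum (𝓞 L))) (hS : S.Finite) (b : Fin 2 → L)
    (hb : Function.Injective b) :
    {t : L | ∀ v, v ∉ S → v.valuation L t ≤ 1 ∧ ∀ i, ¬ v.valuation L (t - b i) < 1}.Finite := by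
  classical
  let S' : Set (HeightOneSpectrum (𝓞 L)) := S ∪
    {v | ∃ w ∈ Set.range fun i => ((b i : L) : Qbar), w ∉ Ov v}
  have hS' : S'.Finite := hS.union (bad_finite _ (Set.finite_range _) (by
    rintro _ ⟨i, rfl⟩
    exact (b i).2))
  have hbv : ∀ v, v ∉ S' → ∀ i, v.valuation L (b i) ≤ 1 := by
    intro v hv i
    by_contra h
    exact hv (Or.inr ⟨_, ⟨i, rfl⟩, fun h2 => h ((mem_Ov _).1 h2)⟩)
  have h01 : b 0 - b 1 ≠ 0 := sub_ne_zero.2 (hb.ne (by decide))
  have h10 : b 1 - b 0 ≠ 0 := sub_ne_zero.2 (hb.ne (by decide))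
  let c1 : L := 1 / (b 1 - b 0)
  let c2 : L := -1 / (b 1 - b 0)
  have hc1 : c1 ≠ 0 := div_ne_zero one_ne_zero h10
  have hc2 : c2 ≠ 0 := div_ne_zero (neg_ne_zero.2 one_ne_zero) h10
  let Γ : Subgroup Qbarˣ := GS S' ⊔ Subgroup.closure
    {Units.mk0 (c1 : Qbar) (fun h => hc1 (Subtype.ext h)),
      Units.mk0 (c2 : Qbar) (fun h => hc2 (Subtype.ext h))}
  have hΓ : Γ.FG := (GS_fg S' hS').sup ⟨{Units.mk0 (c1 : Qbar) (fun h => hc1 (Subtype.ext h)),
      Units.mk0 (c2 : Qbar) (fun h => hc2 (Subtype.ext h))}, by simp⟩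
  have hfin := unit_eq Γ hΓ
  have hfin2 : {t : L | ((c1 * (t - b 0) : L) : Qbar) ∈
        {u : Qbar | ∃ v ∈ Γ, ∃ w ∈ Γ, u = v ∧ (v : Qbar) + w = 1}}.Finite := by
    refine Set.Finite.of_finite_image (f := fun t : L =>
      ((c1 * (t - b 0) : L) : Qbar)) (hfin.subset ?_) ?_
    · rintro _ ⟨t, ht, rfl⟩
      exact ht
    · intro t ht t' ht' h
      have h1 : c1 * (t - b 0) = c1 * (t' - b 0) := Subtype.ext h
      have h2 := mul_left_cancel₀ hc1 h1
      exact sub_left_injective h2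
  refine (hfin2.union (Set.finite_range b)).subset fun t ht => ?_
  by_cases htb : t ∈ Set.range b
  · exact Or.inr htb
  refine Or.inl ?_
  have hne : ∀ i, t - b i ≠ 0 := fun i h => htb ⟨i, (sub_eq_zero.1 h).symm⟩
  have hval : ∀ v, v ∉ S' → ∀ i, v.valuation L (t - b i) = 1 := by
    intro v hv i
    have h1 := ht v (fun h => hv (Or.inl h))
    refine le_antisymm ?_ (not_lt.1 (h1.2 i))
    exact (Valuation.map_sub _ _ _).trans (max_le h1.1 (hbv v hv i))
  have hmem : ∀ i, Units.mk0 ((t - b i : L) : Qbar)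
      (fun h => hne i (Subtype.ext h)) ∈ Γ := fun i =>
    (le_sup_left : GS S' ≤ Γ) (mem_GS' (hne i) fun v hv => hval v hv i)
  have hc1m : Units.mk0 (c1 : Qbar) (fun h => hc1 (Subtype.ext h)) ∈ Γ :=
    (le_sup_right : _ ≤ Γ) (Subgroup.subset_closure (by simp))
  have hc2m : Units.mk0 (c2 : Qbar) (fun h => hc2 (Subtype.ext h)) ∈ Γ :=
    (le_sup_right : _ ≤ Γ) (Subgroup.subset_closure (by simp))
  refine ⟨_, Γ.mul_mem hc1m (hmem 0), _, Γ.mul_mem hc2m (hmem 1), ?_, ?_⟩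
  · rw [Units.val_mul, Units.val_mk0, Units.val_mk0]
    push_cast
    ring
  · rw [Units.val_mul, Units.val_mk0, Units.val_mk0, Units.val_mul, Units.val_mk0, Units.val_mk0]
    have h1 : c1 * (t - b 0) + c2 * (t - b 1) = 1 := by
      simp only [c1, c2]
      field_simp
      ring
    have h2 := congrArg (fun z : L => (z : Qbar)) h1
    simpa using h2

end

end Pool.Agent.Y199.DM
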