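import Pool.Agent.Y199.DM.Nf

/-!
Points of number fields in `ℂ` which are near to conjugates of given algebraic numbers (helper
file).
-/

set_option autoImplicit false

namespace Pool.Agent.Y199.DM

open Polynomial NumberField IsDedekindDomain Pool.Agent.H936R2 Pool.Agent.Y152.BD
open Pool.Agent.Helper259.AbsHt

theorem aeval_int_hom {A B : Type} [CommRing A] [CommRing B] [Algebra ℤ A] [Algebra ℤ B]
    (f : A →+* B) (z : A) (G : ℤ[X]) : aeval (f z) G = f (aeval z G) := by
  rw [aeval_def, aeval_def, hom_eval₂]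
  congr 1
  exact Subsingleton.elim _ _

/-- The property to be near to `a` at some place at which the elements of `s` are integral. -/
def Near (s : Finset ℂ) (a t : ℂ) : Prop :=
  ∃ (p : ℕ) (_ : Fact p.Prime) (τ : ℂ →+* PadicAlgCl p),
    (∀ x ∈ s, ‖τ x‖ ≤ 1) ∧ ‖τ (t - a)‖ < 1

theorem val_le_of_isIntegral {L : IntermediateField ℚ Qbar} [NumberField L]
    (v : HeightOneSpectrum (𝓞 L)) {w : L} (hw : IsIntegral ℤ w) : v.valuation L w ≤ 1 :=
  v.valuation_le_one (K := L) (⟨w, hw⟩ : 𝓞 L)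

/-- Transfer to number fields in the algebraic closure of `ℚ`. -/
theorem transfer (E : IntermediateField ℚ ℂ) [FiniteDimensional ℚ E] {M : ℕ} (β : Fin M → ℂ)
    (halg : ∀ i, IsAlgebraic ℚ (β i)) (s : Fin M → Finset ℂ) (σ : Fin M → (ℂ ≃ₐ[E] ℂ)) :
    ∃ (L : IntermediateField ℚ Qbar) (_ : NumberField L) (g : E →+* L) (b : Fin M → L) (D : ℕ),
      (∀ i j, b i = b j → β i = β j) ∧
      (∀ t : E, ∀ v : HeightOneSpectrum (𝓞 L), ∀ m k : ℕ, v.valuation L (m : L) = 1 →
        (IsIntegral ℤ ((m : ℂ) ^ k * t) → v.valuation L (g t) ≤ 1) ∧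
        ∀ i, (t : ℂ) ≠ β i → IsIntegral ℤ ((m : ℂ) ^ k * ((t : ℂ) - β i)⁻¹) →
          ¬ v.valuation L (g t - b i) < 1) ∧
      ∀ t : E, ∀ v : HeightOneSpectrum (𝓞 L),
        (∀ p : ℕ, p.Prime → p ≤ D → ¬ v.valuation L (p : L) < 1) → ∀ i,
        v.valuation L (g t - b i) < 1 → Near (s i) (σ i (β i)) t := by
  classical
  let A : IntermediateField ℚ ℂ := IntermediateField.adjoin ℚ (Set.range β)
  haveI hA : FiniteDimensional ℚ A := IntermediateField.finiteDimensional_adjoin (by
    rintro _ ⟨i, rfl⟩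
    exact (halg i).isIntegral)
  let LC : IntermediateField ℚ ℂ := E ⊔ A
  haveI hLC : FiniteDimensional ℚ LC := IntermediateField.finiteDimensional_sup E A
  haveI : Algebra.IsAlgebraic ℚ LC := Algebra.IsAlgebraic.of_finite ℚ LC
  let φ : LC →ₐ[ℚ] Qbar := IsAlgClosed.lift
  let L : IntermediateField ℚ Qbar := φ.fieldRange
  haveI hL : FiniteDimensional ℚ L :=
    inferInstanceAs (FiniteDimensional ℚ (LinearMap.range φ.toLinearMap))
  haveI hNL : NumberField L := ⟨⟩
  let ψ : LC →+* L :=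
    { toFun := fun z => ⟨φ z, ⟨z, rfl⟩⟩
      map_one' := Subtype.ext (map_one φ)
      map_zero' := Subtype.ext (map_zero φ)
      map_mul' := fun a b => Subtype.ext (map_mul φ a b)
      map_add' := fun a b => Subtype.ext (map_add φ a b) }
  have hψ : Function.Injective ψ := ψ.injective
  have hE : ∀ e : E, (e : ℂ) ∈ LC := fun e => (le_sup_left : E ≤ LC) e.2
  have hβ : ∀ i, β i ∈ LC := fun i =>
    (le_sup_right : A ≤ LC) (IntermediateField.subset_adjoin ℚ _ ⟨i, rfl⟩)
  let ι : E →+* LC := (IntermediateField.inclusion (le_sup_left : E ≤ LC)).toRingHom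
  have hι : ∀ e : E, ((ι e : LC) : ℂ) = e := fun e => rfl
  choose D hD using fun i => near_place (s i)
  have hint : ∀ (z : LC) (w : ℂ), w = z → IsIntegral ℤ w → IsIntegral ℤ (ψ z) := by
    intro z w hw hz
    have h1 : IsIntegral ℤ ((algebraMap LC ℂ) z) := by
      rw [hw] at hz
      exact hz
    have h2 : IsIntegral ℤ z := (isIntegral_algHom_iff (algebraMap LC ℂ).toIntAlgHom
      (algebraMap LC ℂ).injective).1 h1
    exact h2.map ψ.toIntAlgHom
  have hsub : ∀ (t : E) i, ψ (ι t - ⟨β i, hβ i⟩) = (ψ.comp ι) t - ψ ⟨β i, hβ i⟩ := by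
    intro t i
    rw [RingHom.comp_apply, ← map_sub]
  refine ⟨L, hNL, ψ.comp ι, fun i => ψ ⟨β i, hβ i⟩, ∑ i, D i, fun i j hij => ?_,
    fun t v m k hm => ⟨fun ht => ?_, fun i hne ht hlt => ?_⟩, fun t v hv i hlt => ?_⟩
  · have h1 := hψ hij
    exact congrArg (fun z : LC => (z : ℂ)) h1
  · have h1 := val_le_of_isIntegral v (hint ((m : LC) ^ k * ι t) _ (by
      push_cast
      rfl) ht)
    rw [map_mul, map_pow, map_natCast, map_mul, map_pow, hm, one_pow, one_mul] at h1
    exact h1
  · have h1 := val_le_of_isIntegral v (hint ((m : LC) ^ k * (ι t - ⟨β i, hβ i⟩)⁻¹) _ (by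
      push_cast
      rfl) ht)
    rw [map_mul, map_pow, map_natCast, map_mul, map_pow, hm, one_pow, one_mul, map_inv₀,
      map_inv₀, hsub] at h1
    have h2 : v.valuation L ((ψ.comp ι) t - ψ ⟨β i, hβ i⟩) ≠ 0 := by
      rw [Ne, map_eq_zero, ← hsub, map_eq_zero, sub_eq_zero]
      intro h
      exact hne (congrArg (fun z : LC => (z : ℂ)) h)
    exact absurd hlt (not_lt.2 ((inv_le_one₀ (zero_lt_iff.2 h2)).1 h1))
  · let z : LC := ι t - ⟨β i, hβ i⟩
    have hz : ((z : LC) : ℂ) = t - β i := rfl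
    have hσt : σ i (t : ℂ) = t := (σ i).commutes t
    have hu : (t : ℂ) - σ i (β i) = σ i ((z : LC) : ℂ) := by
      rw [hz, map_sub, hσt]
    refine hD i L v (fun p hp hle => hv p hp (hle.trans ?_)) (ψ z) ((t : ℂ) - σ i (β i)) ?_ ?_ ?_
    · exact Finset.single_le_sum (f := D) (fun _ _ => Nat.zero_le _) (Finset.mem_univ i)
    · have h1 : IsAlgebraic ℚ z := Algebra.IsAlgebraic.isAlgebraic z
      have h2 : IsAlgebraic ℚ ((z : LC) : ℂ) := h1.algebraMap
      rw [hu]
      obtain ⟨P, hP0, hP⟩ := h2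
      refine ⟨P, hP0, ?_⟩
      have h3 : aeval ((σ i).toAlgHom.restrictScalars ℚ ((z : LC) : ℂ)) P =
          (σ i).toAlgHom.restrictScalars ℚ (aeval ((z : LC) : ℂ) P) :=
        Polynomial.aeval_algHom_apply _ _ _
      rw [hP, map_zero] at h3
      exact h3
    · intro G hG
      rw [hu] at hG
      have h1 : aeval ((σ i).toRingEquiv.toRingHom ((z : LC) : ℂ)) G = 0 := hG
      rw [aeval_int_hom] at h1
      have h2 : aeval ((z : LC) : ℂ) G = 0 := (map_eq_zero _).1 h1
      have h3 : aeval ((algebraMap LC ℂ) z) G = 0 := h2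
      rw [aeval_int_hom] at h3
      have h4 : aeval z G = 0 := (map_eq_zero _).1 h3
      have h5 : aeval (ψ z) G = ψ (aeval z G) := aeval_int_hom ψ z G
      rw [h4, map_zero] at h5
      exact h5
    · rw [hsub]
      exact hlt

theorem val_eq_one {L : IntermediateField ℚ Qbar} [NumberField L] (v : HeightOneSpectrum (𝓞 L))
    (D : ℕ) (hv : ∀ p : ℕ, p.Prime → p ≤ D → ¬ v.valuation L (p : L) < 1) :
    ∀ n : ℕ, n ≠ 0 → n ≤ D → v.valuation L (n : L) = 1 := by
  intro n
  induction n using Nat.recOnMul with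
  | zero => exact fun h => absurd rfl h
  | one => intro _ _; simp
  | prime p hp =>
    intro _ hpD
    refine le_antisymm ?_ (not_lt.1 (hv p hp hpD))
    exact_mod_cast val_int_le v p
  | mul a b ha hb =>
    intro hab habD
    have ha0 := left_ne_zero_of_mul hab
    have hb0 := right_ne_zero_of_mul hab
    have h1 : a ≤ a * b := Nat.le_mul_of_pos_right a (Nat.pos_of_ne_zero hb0)
    have h2 : b ≤ a * b := Nat.le_mul_of_pos_left b (Nat.pos_of_ne_zero ha0)
    rw [Nat.cast_mul, map_mul, ha ha0 (h1.trans habD), hb hb0 (h2.trans habD), mul_one]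

/-- `t` is integral with respect to the point `b` of the projective line, outside `m`. -/
def Avoids (m : ℕ) : Option ℂ → ℂ → Prop
  | none, t => ∃ k : ℕ, IsIntegral ℤ ((m : ℂ) ^ k * t)
  | some z, t => ∃ k : ℕ, IsIntegral ℤ ((m : ℂ) ^ k * (t - z)⁻¹)

/-- Points of the projective line over a number field: all but finitely many of the points which are
integral with respect to some of three points are near to one of the others. -/
theorem near_line (E : IntermediateField ℚ ℂ) [FiniteDimensional ℚ E] (b : Fin 3 → Option ℂ)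
    (hb : Function.Injective b) (halg : ∀ i, ∀ z ∈ b i, IsAlgebraic ℚ z) (s : Fin 3 → Finset ℂ)
    (σ : Fin 3 → (ℂ ≃ₐ[E] ℂ)) (m : ℕ) (hm : 1 ≤ m) :
    {t : ℂ | t ∈ E ∧ ∀ i, Avoids m (b i) t ∨
      ∃ z ∈ b i, ¬ Near (s i) (σ i z) t}.Finite := by
  classical
  let β : Fin 3 → ℂ := fun i => (b i).getD 0
  have hβ : ∀ i, ∀ z ∈ b i, β i = z := by
    intro i z hz
    simp only [β, Option.mem_def.1 hz, Option.getD_some]
  have hβalg : ∀ i, IsAlgebraic ℚ (β i) := by
    intro i
    rcases hi : b i with _ | z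
    · simp only [β, hi, Option.getD_none]
      exact isAlgebraic_zero
    · rw [hβ i z (by rw [hi]; rfl)]
      exact halg i z (by rw [hi]; rfl)
  obtain ⟨L, _, g, c, D, hc, hint, hnear⟩ := transfer E β hβalg s σ
  have hinj : ∀ i j, b i ≠ none → b j ≠ none → c i = c j → i = j := by
    intro i j hi hj hij
    obtain ⟨z, hz⟩ := Option.ne_none_iff_exists'.1 hi
    obtain ⟨w, hw⟩ := Option.ne_none_iff_exists'.1 hj
    have h1 := hc i j hij
    rw [hβ i z hz, hβ j w hw] at h1
    refine hb ?_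
    rw [hz, hw, h1]
  -- the finite set
  let S : Set (HeightOneSpectrum (𝓞 L)) :=
    {v | ∃ p : ℕ, p.Prime ∧ p ≤ D + m ∧ v.valuation L (p : L) < 1}
  have hS : S.Finite := finite_small (L := L) (D + m)
  have hfin : {t : L | ∀ v, v ∉ S → ∀ i, (b i = none → v.valuation L t ≤ 1) ∧
      (b i ≠ none → ¬ v.valuation L (t - c i) < 1)}.Finite := by
    by_cases hnone : ∃ i, b i = none
    · obtain ⟨i, hi⟩ := hnone
      have hother : ∀ j, j ≠ i → b j ≠ none := fun j hj h => hj (hb (h.trans hi.symm))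
      obtain ⟨j, k, hji, hki, hjk⟩ : ∃ j k : Fin 3, j ≠ i ∧ k ≠ i ∧ j ≠ k := by
        fin_cases i
        · exact ⟨1, 2, by decide, by decide, by decide⟩
        · exact ⟨0, 2, by decide, by decide, by decide⟩
        · exact ⟨0, 1, by decide, by decide, by decide⟩
      refine (finite_far2 S hS ![c j, c k] (fun p q hpq => ?_)).subset fun t ht v hv => ?_
      · have h1 : c j ≠ c k := fun h => hjk (hinj j k (hother j hji) (hother k hki) h)
        fin_cases p <;> fin_cases q
        · rfl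
        · exact absurd hpq h1
        · exact absurd hpq.symm h1
        · rfl
      · refine ⟨(ht v hv i).1 hi, fun q => ?_⟩
        fin_cases q
        · exact (ht v hv j).2 (hother j hji)
        · exact (ht v hv k).2 (hother k hki)
    · push Not at hnone
      exact (finite_far3 S hS c (fun i j h => hinj i j (hnone i) (hnone j) h)).subset
        fun t ht v hv i => (ht v hv i).2 (hnone i)
  have h1 := (hfin.preimage g.injective.injOn).image (fun t : E => (t : ℂ))
  refine (h1.union (Set.finite_range β)).subset ?_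
  rintro t ⟨htE, ht⟩
  by_cases htβ : t ∈ Set.range β
  · exact Or.inr htβ
  refine Or.inl ⟨⟨t, htE⟩, fun v hv i => ?_, rfl⟩
  have hv' : ∀ p : ℕ, p.Prime → p ≤ D + m → ¬ v.valuation L (p : L) < 1 :=
    fun p hp hle hlt' => hv ⟨p, hp, hle, hlt'⟩
  have hm1 := val_eq_one v (D + m) hv' m (by omega) (by omega)
  constructor
  · intro hi
    rcases ht i with h | ⟨z, hz, -⟩
    · rw [hi] at h
      obtain ⟨k, hk⟩ := h
      exact (hint ⟨t, htE⟩ v m k hm1).1 hk
    · rw [hi] at hz
      exact absurd hz (Option.not_mem_none z)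
  · intro hi
    obtain ⟨z, hz⟩ := Option.ne_none_iff_exists'.1 hi
    have hβz := hβ i z hz
    rcases ht i with h | ⟨w, hw, hnot⟩
    · rw [hz] at h
      obtain ⟨k, hk⟩ := h
      refine (hint ⟨t, htE⟩ v m k hm1).2 i (fun h => htβ ⟨i, h.symm⟩) ?_
      rw [hβz]
      exact hk
    · intro hlt
      apply hnot
      have hβw := hβ i w hw
      have := hnear ⟨t, htE⟩ v (fun p hp hle => hv' p hp (by omega)) i hlt
      rwa [hβw] at this

end Pool.Agent.Y199.DM
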