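import Pool.Agent.Y199.DM.Emb
import Pool.Agent.Y199.DM.Orb

/-!
Rational numbers near to a given algebraic number, at embeddings for which given numbers are integral
(helper file).
-/

set_option autoImplicit false

namespace Pool.Agent.Y199.DM

open Polynomial Pool.Agent.H936R2 Pool.Agent.TH838.PR Pool.Agent.Y152.BD

/-- For almost all `p` and all rational `t` with `p` dividing the value at `t` of the minimal
polynomial of `α` there is an embedding which maps the elements of `s` to integral elements and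
`α` near to `t`. -/
theorem emb_alg_near (s : Finset ℂ) (α : ℂ) (G : ℤ[X]) (hG : Irreducible G)
    (hGα : aeval α G = 0) : ∃ D : ℕ, ∀ (p : ℕ) [Fact p.Prime], D < p → ∀ t : ℚ, ¬ p ∣ t.den →
      (p : ℤ) ∣ Nv G t → ∃ τ : ℂ →+* PadicAlgCl p, (∀ x ∈ s, ‖τ x‖ ≤ 1) ∧ ‖τ α - t‖ < 1 := by
  classical
  obtain ⟨D, hD⟩ := emb_alg s
  exact ⟨D, fun p hp hlt t hden hdvd => hD p hlt α G hG hGα t hden hdvd⟩

/-- The criterion for two parameters: the orbit at `t` if `t` is near to `α`. -/
theorem near_core {N d : ℕ} (F : ℂ → Fin (N + 1) → MvPolynomial (Fin (N + 1)) ℂ)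
    (x : ℂ → Fin (N + 1) → ℂ) (cF : Fin (N + 1) → (Fin (N + 1) →₀ ℕ) → ℂ[X])
    (cx : Fin (N + 1) → ℂ[X]) (hcF : ∀ t i κ, (F t i).coeff κ = (cF i κ).eval t)
    (hcx : ∀ t i, x t i = (cx i).eval t)
    (hfin : {q : Fin (N + 1) × (Fin (N + 1) →₀ ℕ) | cF q.1 q.2 ≠ 0}.Finite)
    (hF : ∀ t i, (F t i).IsHomogeneous d) (α : ℂ) (hα : EtalePreperiodic (F α) (x α)) :
    ∃ s : Finset ℂ, ∀ (p : ℕ) [Fact p.Prime] (τ : ℂ →+* PadicAlgCl p), (∀ y ∈ s, ‖τ y‖ ≤ 1) →
      ∀ t : ℂ, ‖τ t‖ ≤ 1 → ‖τ α - τ t‖ < 1 → DMLAt (F t) (x t) := by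
  classical
  obtain ⟨s, n₀, -, hs⟩ := exists_units (F α) (hF α) _ hα
  let s1 : Finset ℂ := hfin.toFinset.biUnion fun q =>
    (cF q.1 q.2).support.image fun k => (cF q.1 q.2).coeff k
  let s2 : Finset ℂ := Finset.univ.biUnion fun i => (cx i).support.image fun k => (cx i).coeff k
  have hs1 : ∀ i κ k, (cF i κ).coeff k ≠ 0 → (cF i κ).coeff k ∈ s1 := by
    intro i κ k h
    have h1 : cF i κ ≠ 0 := fun h0 => h (by rw [h0, coeff_zero])
    simp only [s1, Finset.mem_biUnion, Finset.mem_image]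
    exact ⟨(i, κ), (Set.Finite.mem_toFinset hfin).2 h1, k, mem_support_iff.2 h, rfl⟩
  have hs2 : ∀ i k, (cx i).coeff k ≠ 0 → (cx i).coeff k ∈ s2 := by
    intro i k h
    simp only [s2, Finset.mem_biUnion, Finset.mem_image, Finset.mem_univ, true_and]
    exact ⟨i, k, mem_support_iff.2 h, rfl⟩
  refine ⟨s ∪ s1 ∪ s2, fun p hp τ hτ t htn htα => ?_⟩
  have hτ0 : ∀ y ∈ s, ‖τ y‖ ≤ 1 := fun y hy => hτ y (by simp [hy])
  have hτ1 : ∀ i κ k, ‖τ ((cF i κ).coeff k)‖ ≤ 1 := by
    intro i κ k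
    by_cases h : (cF i κ).coeff k = 0
    · rw [h, map_zero, norm_zero]
      exact zero_le_one
    · exact hτ _ (by simp [hs1 i κ k h])
  have hτ2 : ∀ i k, ‖τ ((cx i).coeff k)‖ ≤ 1 := by
    intro i k
    by_cases h : (cx i).coeff k = 0
    · rw [h, map_zero, norm_zero]
      exact zero_le_one
    · exact hτ _ (by simp [hs2 i k h])
  have htα' : ‖τ t - τ α‖ < 1 := by rwa [norm_sub_rev]
  have hαn : ‖τ α‖ ≤ 1 := by
    have h1 : τ α = (τ α - τ t) + τ t := by ring
    rw [h1]
    exact (IsUltrametricDist.norm_add_le_max _ _).trans (max_le htα.le htn)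
  have hev := fun (q : ℂ[X]) (hq : ∀ k, ‖τ (q.coeff k)‖ ≤ 1) =>
    eval_near τ q hq t α htn hαn htα'
  have hevα := fun (q : ℂ[X]) (hq : ∀ k, ‖τ (q.coeff k)‖ ≤ 1) =>
    (eval_near τ q hq α α hαn hαn (by rw [sub_self, norm_zero]; exact one_pos)).1
  obtain ⟨hdet, hne⟩ := hs p τ hτ0
  refine orbit_core τ (F t) (F α) (x t) (x α) (fun i κ => ?_)
    (fun i κ => ?_) (fun i κ => ?_) (fun i => ?_) (fun i => ?_)
    (fun i => ?_) n₀ hdet hne
  · rw [hcF]
    exact (hev _ (hτ1 i κ)).1
  · rw [hcF]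
    exact hevα _ (hτ1 i κ)
  · rw [hcF, hcF]
    exact (hev _ (hτ1 i κ)).2
  · rw [hcx]
    exact (hev _ (hτ2 i)).1
  · rw [hcx]
    exact hevα _ (hτ2 i)
  · rw [hcx, hcx]
    exact (hev _ (hτ2 i)).2

/-- The number of the positive integers up to `M` without prime factors larger than `D`. -/
theorem card_smooth_le (D M : ℕ) (T : Finset ℕ)
    (hT : ∀ m ∈ T, m ≠ 0 ∧ m ≤ M ∧ ∀ p, p.Prime → p ∣ m → p ≤ D) :
    T.card ≤ (Nat.log 2 M + 1) ^ (D + 1) := by
  classical
  let f : ℕ → (Fin (D + 1) → Fin (Nat.log 2 M + 1)) := fun m i =>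
    if h : m.factorization i < Nat.log 2 M + 1 then ⟨m.factorization i, h⟩ else 0
  have hlt : ∀ m ∈ T, ∀ i, m.factorization i < Nat.log 2 M + 1 := by
    intro m hm i
    obtain ⟨hm0, hmM, -⟩ := hT m hm
    by_cases hi : i.Prime
    · refine Nat.lt_succ_of_le ?_
      refine Nat.le_log_of_pow_le one_lt_two ?_
      calc 2 ^ m.factorization i ≤ i ^ m.factorization i := Nat.pow_le_pow_left hi.two_le _
        _ ≤ m := Nat.ordProj_le i hm0
        _ ≤ M := hmM
    · rw [Nat.factorization_eq_zero_of_not_prime m hi]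
      exact Nat.succ_pos _
  have hinj : Set.InjOn f T := by
    intro a ha b hb hab
    obtain ⟨ha0, -, haD⟩ := hT a ha
    obtain ⟨hb0, -, hbD⟩ := hT b hb
    refine Nat.eq_of_factorization_eq ha0 hb0 fun p => ?_
    by_cases hp : p < D + 1
    · have h1 := congrFun hab ⟨p, hp⟩
      simp only [f, dif_pos (hlt a ha _), dif_pos (hlt b hb _)] at h1
      exact Fin.mk.inj_iff.1 h1
    · by_cases hpp : p.Prime
      · rw [Nat.factorization_eq_zero_of_not_dvd fun h => hp (Nat.lt_succ_of_le (haD p hpp h)),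
          Nat.factorization_eq_zero_of_not_dvd fun h => hp (Nat.lt_succ_of_le (hbD p hpp h))]
      · rw [Nat.factorization_eq_zero_of_not_prime a hpp,
          Nat.factorization_eq_zero_of_not_prime b hpp]
  calc T.card = (T.image f).card := (Finset.card_image_of_injOn hinj).symm
    _ ≤ (Finset.univ : Finset (Fin (D + 1) → Fin (Nat.log 2 M + 1))).card :=
        Finset.card_le_card (Finset.subset_univ _)
    _ = (Nat.log 2 M + 1) ^ (D + 1) := by simp

/-- The bound for the value `Nv G t`. -/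
theorem abs_Nv_le (G : ℤ[X]) (t : ℚ) (B : ℕ) (hden : t.den ≤ B) (hnum : |t.num| ≤ B) :
    |Nv G t| ≤ (∑ i ∈ Finset.range (G.natDegree + 1), |G.coeff i|) * (B : ℤ) ^ G.natDegree := by
  rw [Nv, Finset.sum_mul]
  refine (Finset.abs_sum_le_sum_abs _ _).trans (Finset.sum_le_sum fun i hi => ?_)
  rw [Finset.mem_range] at hi
  rw [abs_mul, abs_mul, mul_assoc]
  refine mul_le_mul_of_nonneg_left ?_ (abs_nonneg _)
  rw [abs_pow, abs_pow]
  have h1 : |((t.den : ℕ) : ℤ)| ≤ B := by
    rw [abs_of_nonneg (by positivity)]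
    exact_mod_cast hden
  have hsplit : (B : ℤ) ^ G.natDegree = (B : ℤ) ^ i * (B : ℤ) ^ (G.natDegree - i) := by
    rw [← pow_add]
    congr 1
    omega
  rw [hsplit]
  exact mul_le_mul (pow_le_pow_left₀ (abs_nonneg _) hnum _)
    (pow_le_pow_left₀ (abs_nonneg _) h1 _) (by positivity) (by positivity)

/-- For given denominator and given value of `Nv G` there are at most `deg G` numerators. -/
theorem card_fibre_le (G : ℤ[X]) (hG : G.natDegree ≠ 0) (v : ℕ) (m : ℤ) (T : Finset ℚ)
    (hT : ∀ t ∈ T, t.den = v ∧ Nv G t = m) : T.card ≤ G.natDegree := by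
  classical
  rcases T.eq_empty_or_nonempty with rfl | ⟨t₀, ht₀⟩
  · simp
  have hv : v ≠ 0 := by
    rw [← (hT t₀ ht₀).1]
    exact t₀.den_nz
  -- the polynomial in the numerator
  let P : ℤ[X] := ∑ i ∈ Finset.range (G.natDegree + 1),
    C (G.coeff i * (v : ℤ) ^ (G.natDegree - i)) * X ^ i
  have hcoeff : ∀ k, P.coeff k = if k < G.natDegree + 1 then
      G.coeff k * (v : ℤ) ^ (G.natDegree - k) else 0 := by
    intro k
    simp only [P, finsetSum_coeff, coeff_C_mul, coeff_X_pow]
    simp [Finset.sum_ite_eq]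
  have hPdeg : P.natDegree ≤ G.natDegree := by
    rw [natDegree_le_iff_coeff_eq_zero]
    intro k hk
    rw [hcoeff, if_neg (by omega)]
  have hP : P.coeff G.natDegree = G.leadingCoeff := by
    rw [hcoeff, if_pos (by omega), Nat.sub_self, pow_zero, mul_one]
    rfl
  have hQdeg : (P - C m).coeff G.natDegree = G.leadingCoeff := by
    rw [coeff_sub, hP, coeff_C, if_neg hG, sub_zero]
  have hQ0 : P - C m ≠ 0 := by
    intro h0
    rw [h0, coeff_zero] at hQdeg
    have := leadingCoeff_eq_zero.1 hQdeg.symm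
    rw [this] at hG
    simp at hG
  have hinj : Set.InjOn (fun t : ℚ => t.num) T := by
    intro a ha b hb hab
    refine Rat.ext hab ?_
    rw [(hT a ha).1, (hT b hb).1]
  calc T.card = (T.image fun t : ℚ => t.num).card := (Finset.card_image_of_injOn hinj).symm
    _ ≤ (P - C m).roots.toFinset.card := by
        refine Finset.card_le_card fun z hz => ?_
        obtain ⟨t, ht, rfl⟩ := Finset.mem_image.1 hz
        rw [Multiset.mem_toFinset, mem_roots hQ0, IsRoot.def, eval_sub, eval_C, sub_eq_zero]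
        have h1 := (hT t ht).2
        rw [← h1, Nv, (hT t ht).1]
        simp only [P, eval_finsetSum, eval_mul, eval_C, eval_pow, eval_X]
        exact Finset.sum_congr rfl fun i _ => by ring
    _ ≤ Multiset.card (P - C m).roots := Multiset.toFinset_card_le _
    _ ≤ (P - C m).natDegree := card_roots' _
    _ ≤ G.natDegree := by
        refine (natDegree_sub_le _ _).trans (max_le hPdeg ?_)
        rw [natDegree_C]
        exact Nat.zero_le _

/-- The rational numbers `t` with given denominator, numerator at most `B`, such that `Nv G t` has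
no prime factor larger than `D`. -/
theorem card_exceptions_le (G : ℤ[X]) (hG : G.natDegree ≠ 0) (D : ℕ) : ∃ C s : ℕ,
    ∀ B v : ℕ, 2 ≤ B → v ≤ B → ∀ T : Finset ℚ, (∀ t ∈ T, t.den = v ∧ |t.num| ≤ B ∧
      Nv G t ≠ 0 ∧ ∀ p : ℕ, p.Prime → (p : ℤ) ∣ Nv G t → p ≤ D) →
      (T.card : ℝ) ≤ C * Real.log B ^ s := by
  classical
  let A : ℕ := (∑ i ∈ Finset.range (G.natDegree + 1), |G.coeff i|).toNat
  -- the bound
  have hlog2 : (0 : ℝ) < Real.log 2 := Real.log_pos one_lt_two
  obtain ⟨c, hc⟩ : ∃ c : ℕ, ∀ B : ℕ, 2 ≤ B →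
      ((Nat.log 2 (A * B ^ G.natDegree) + 1 : ℕ) : ℝ) ≤ c * Real.log B := by
    obtain ⟨c, hc⟩ := exists_nat_ge ((Real.log (A + 1) / Real.log 2 + 1) / Real.log 2 +
      G.natDegree / Real.log 2)
    refine ⟨c, fun B hB => ?_⟩
    have hB' : (2 : ℝ) ≤ B := by exact_mod_cast hB
    have hlB : Real.log 2 ≤ Real.log B := Real.log_le_log (by norm_num) hB'
    have hlB0 : 0 < Real.log B := lt_of_lt_of_le hlog2 hlB
    have h1 : (Nat.log 2 (A * B ^ G.natDegree) : ℝ) * Real.log 2 ≤
        Real.log ((A + 1) * (B : ℝ) ^ G.natDegree) := by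
      rcases Nat.eq_zero_or_pos A with hA | hA
      · rw [hA]
        simp only [zero_mul, Nat.log_zero_right, CharP.cast_eq_zero, zero_mul]
        refine Real.log_nonneg ?_
        have : (1 : ℝ) ≤ (B : ℝ) ^ G.natDegree := one_le_pow₀ (by linarith)
        linarith
      · have h2 : 2 ^ Nat.log 2 (A * B ^ G.natDegree) ≤ A * B ^ G.natDegree :=
          Nat.pow_log_le_self 2 (by positivity)
        have h3 : ((2 : ℝ) ^ Nat.log 2 (A * B ^ G.natDegree)) ≤
            (A + 1) * (B : ℝ) ^ G.natDegree := by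
          calc ((2 : ℝ) ^ Nat.log 2 (A * B ^ G.natDegree)) ≤ ((A * B ^ G.natDegree : ℕ) : ℝ) := by
                exact_mod_cast h2
            _ = A * (B : ℝ) ^ G.natDegree := by push_cast; ring
            _ ≤ (A + 1) * (B : ℝ) ^ G.natDegree := by
                have : (0 : ℝ) ≤ (B : ℝ) ^ G.natDegree := by positivity
                nlinarith
        have h4 := Real.log_le_log (by positivity) h3
        rwa [Real.log_pow] at h4
    rw [Real.log_mul (by positivity) (by positivity), Real.log_pow] at h1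
    have h5 : (Nat.log 2 (A * B ^ G.natDegree) : ℝ) ≤
        Real.log (A + 1) / Real.log 2 + G.natDegree * Real.log B / Real.log 2 := by
      rw [← add_div, le_div_iff₀ hlog2]
      exact h1
    push_cast
    have hA0 : 0 ≤ Real.log ((A : ℝ) + 1) := Real.log_nonneg (by
      have : (0 : ℝ) ≤ A := Nat.cast_nonneg A
      linarith)
    have h6 : Real.log (A + 1) / Real.log 2 + 1 ≤
        ((Real.log (A + 1) / Real.log 2 + 1) / Real.log 2) * Real.log B := by
      rw [div_mul_eq_mul_div, le_div_iff₀ hlog2]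
      have : 0 ≤ Real.log (A + 1) / Real.log 2 + 1 := by positivity
      nlinarith
    calc (Nat.log 2 (A * B ^ G.natDegree) : ℝ) + 1 ≤
          Real.log (A + 1) / Real.log 2 + G.natDegree * Real.log B / Real.log 2 + 1 := by linarith
      _ = (Real.log (A + 1) / Real.log 2 + 1) + G.natDegree / Real.log 2 * Real.log B := by ring
      _ ≤ ((Real.log (A + 1) / Real.log 2 + 1) / Real.log 2) * Real.log B +
            G.natDegree / Real.log 2 * Real.log B := by linarith
      _ = ((Real.log (A + 1) / Real.log 2 + 1) / Real.log 2 + G.natDegree / Real.log 2) *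
            Real.log B := by ring
      _ ≤ c * Real.log B := mul_le_mul_of_nonneg_right hc hlB0.le
  refine ⟨2 * G.natDegree * c ^ (D + 1), D + 1, fun B v hB hv T hT => ?_⟩
  -- the values
  let W : Finset ℤ := T.image fun t => Nv G t
  let W' : Finset ℕ := W.image Int.natAbs
  have hWcard : W.card ≤ 2 * W'.card := by
    have h1 : W ⊆ (W'.image fun n : ℕ => (n : ℤ)) ∪ (W'.image fun n : ℕ => -(n : ℤ)) := by
      intro z hz
      rw [Finset.mem_union]
      rcases Int.natAbs_eq z with h | h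
      · left
        rw [h]
        exact Finset.mem_image_of_mem _ (Finset.mem_image_of_mem _ hz)
      · right
        rw [h]
        exact Finset.mem_image_of_mem (fun n : ℕ => -(n : ℤ)) (Finset.mem_image_of_mem _ hz)
    refine (Finset.card_le_card h1).trans ((Finset.card_union_le _ _).trans ?_)
    have h2 := Finset.card_image_le (s := W') (f := fun n : ℕ => (n : ℤ))
    have h3 := Finset.card_image_le (s := W') (f := fun n : ℕ => -(n : ℤ))
    omega
  have hW' : W'.card ≤ (Nat.log 2 (A * B ^ G.natDegree) + 1) ^ (D + 1) := by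
    refine card_smooth_le D _ W' fun m hm => ?_
    obtain ⟨z, hz, rfl⟩ := Finset.mem_image.1 hm
    obtain ⟨t, ht, rfl⟩ := Finset.mem_image.1 hz
    obtain ⟨hden, hnum, h0, hsm⟩ := hT t ht
    refine ⟨Int.natAbs_ne_zero.2 h0, ?_, fun p hp hdvd => hsm p hp ?_⟩
    · have h1 := abs_Nv_le G t B (by rw [hden]; exact hv) hnum
      have hA : ((A : ℕ) : ℤ) = ∑ i ∈ Finset.range (G.natDegree + 1), |G.coeff i| :=
        Int.toNat_of_nonneg (Finset.sum_nonneg fun _ _ => abs_nonneg _)
      rw [← hA, Int.abs_eq_natAbs] at h1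
      exact_mod_cast h1
    · exact Int.natCast_dvd.2 hdvd
  have hT1 : T.card ≤ G.natDegree * W.card := by
    refine Finset.card_le_mul_card_image T G.natDegree fun m hm => ?_
    refine card_fibre_le G hG v m _ fun t ht => ?_
    rw [Finset.mem_filter] at ht
    exact ⟨(hT t ht.1).1, ht.2⟩
  have h1 : T.card ≤ 2 * G.natDegree * (Nat.log 2 (A * B ^ G.natDegree) + 1) ^ (D + 1) := by
    calc T.card ≤ G.natDegree * W.card := hT1
      _ ≤ G.natDegree * (2 * (Nat.log 2 (A * B ^ G.natDegree) + 1) ^ (D + 1)) :=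
          Nat.mul_le_mul_left _ (hWcard.trans (Nat.mul_le_mul_left _ hW'))
      _ = _ := by ring
  have hB' : (2 : ℝ) ≤ B := by exact_mod_cast hB
  calc (T.card : ℝ) ≤ ((2 * G.natDegree * (Nat.log 2 (A * B ^ G.natDegree) + 1) ^ (D + 1) : ℕ) :
        ℝ) := by exact_mod_cast h1
    _ = 2 * G.natDegree * ((Nat.log 2 (A * B ^ G.natDegree) + 1 : ℕ) : ℝ) ^ (D + 1) := by
        push_cast; ring
    _ ≤ 2 * G.natDegree * (c * Real.log B) ^ (D + 1) := by
        refine mul_le_mul_of_nonneg_left ?_ (by positivity)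
        exact pow_le_pow_left₀ (by positivity) (hc B hB) _
    _ = ((2 * G.natDegree * c ^ (D + 1) : ℕ) : ℝ) * Real.log B ^ (D + 1) := by
        rw [mul_pow]; push_cast; ring

end Pool.Agent.Y199.DM
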